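import Mathlib

set_option autoImplicit false

/-!
Bridged graphs, part A: in a connected graph without isometric cycles of length at least four the
triangle condition and the quadrangle (clique) condition hold.
-/

namespace Pool.Agent.R42.Br

universe u

variable {V : Type u}

/-- A periodic parametrisation of an isometric cycle of length `m`. -/
def IsoCycle (G : SimpleGraph V) (m : ℕ) (f : ℕ → V) : Prop :=
  (∀ i, f (i + m) = f i) ∧ (∀ i, G.Adj (f i) (f (i + 1))) ∧
    ∀ i j, i ≤ j → j ≤ i + m → G.dist (f i) (f j) = min (j - i) (m - (j - i))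

/-- No isometric cycle of length at least four. -/
def NI (G : SimpleGraph V) : Prop := ∀ m, 4 ≤ m → ∀ f : ℕ → V, ¬ IsoCycle G m f

/-- No induced `C₄`. -/
def C4 (G : SimpleGraph V) : Prop := ∀ a b c d : V, G.Adj a b → G.Adj b c → G.Adj c d → G.Adj d a →
  a ≠ c → b ≠ d → G.Adj a c ∨ G.Adj b d

/-- No induced `C₅`. -/
def C5 (G : SimpleGraph V) : Prop := ∀ a b c d e : V, G.Adj a b → G.Adj b c → G.Adj c d →
  G.Adj d e → G.Adj e a → a ≠ c → a ≠ d → b ≠ d → b ≠ e → c ≠ e →
  G.Adj a c ∨ G.Adj a d ∨ G.Adj b d ∨ G.Adj b e ∨ G.Adj c e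

theorem walk_of_fun (G : SimpleGraph V) (f : ℕ → V) (i n : ℕ)
    (h : ∀ k, i ≤ k → k < i + n → G.Adj (f k) (f (k + 1))) :
    ∃ p : G.Walk (f i) (f (i + n)), p.length = n := by
  induction n with
  | zero => exact ⟨SimpleGraph.Walk.nil, rfl⟩
  | succ n ih =>
    obtain ⟨p, hp⟩ := ih (fun k h1 h2 => h k h1 (by omega))
    have h1 : G.Adj (f (i + n)) (f (i + (n + 1))) := h (i + n) (by omega) (by omega)
    exact ⟨p.concat h1, by simp [hp]⟩

theorem dist_fun_le (G : SimpleGraph V) (f : ℕ → V) (i j : ℕ) (hij : i ≤ j)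
    (h : ∀ k, i ≤ k → k < j → G.Adj (f k) (f (k + 1))) :
    G.dist (f i) (f j) ≤ j - i := by
  obtain ⟨n, rfl⟩ := Nat.exists_eq_add_of_le hij
  obtain ⟨p, hp⟩ := walk_of_fun G f i n h
  have := SimpleGraph.dist_le p
  omega

theorem reach_fun (G : SimpleGraph V) (f : ℕ → V) (i j : ℕ) (hij : i ≤ j)
    (h : ∀ k, i ≤ k → k < j → G.Adj (f k) (f (k + 1))) :
    G.Reachable (f i) (f j) := by
  obtain ⟨n, rfl⟩ := Nat.exists_eq_add_of_le hij
  obtain ⟨p, hp⟩ := walk_of_fun G f i n h
  exact p.reachable

/-- To be an isometric cycle it is enough to have the lower bound on the distances. -/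
theorem isoCycle_of_le (G : SimpleGraph V) (m : ℕ) (f : ℕ → V) (h1 : ∀ i, f (i + m) = f i)
    (h2 : ∀ i, G.Adj (f i) (f (i + 1)))
    (h3 : ∀ i j, i < m → i ≤ j → j < i + m → min (j - i) (m - (j - i)) ≤ G.dist (f i) (f j)) :
    IsoCycle G m f := by
  refine ⟨h1, h2, ?_⟩
  intro i j hij hj
  have hper : ∀ q i, f (i + q * m) = f i := by
    intro q
    induction q with
    | zero => intro i; simp
    | succ q ih =>
      intro i
      have : i + (q + 1) * m = (i + q * m) + m := by ring
      rw [this, h1, ih]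
  apply le_antisymm
  · apply le_min
    · exact dist_fun_le G f i j hij (fun k _ _ => h2 k)
    · have h4 := dist_fun_le G f j (i + m) hj (fun k _ _ => h2 k)
      rw [h1, SimpleGraph.dist_comm] at h4
      omega
  · rcases Nat.eq_or_lt_of_le hj with h | h
    · subst h
      simp
    · rcases Nat.eq_zero_or_pos m with hm | hm
      · subst hm; omega
      · have e1 : i = i % m + (i / m) * m := by
          have := Nat.mod_add_div i m
          rw [mul_comm] at this; omega
        have e2 : j = (j - (i / m) * m) + (i / m) * m := by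
          have : (i / m) * m ≤ i := Nat.div_mul_le_self i m
          omega
        have h5 := h3 (i % m) (j - (i / m) * m) (Nat.mod_lt _ hm) (by omega) (by omega)
        have e3 : f i = f (i % m) := by
          conv_lhs => rw [e1]
          exact hper _ _
        have e4 : f j = f (j - (i / m) * m) := by
          conv_lhs => rw [e2]
          exact hper _ _
        rw [e3, e4]
        have e5 : j - (i / m) * m - i % m = j - i := by omega
        rw [e5] at h5
        exact h5

/-- A closed function of length `m` with the right distances contradicts `NI`. -/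
theorem NI.no_cycle {G : SimpleGraph V} (h : NI G) {m : ℕ} (hm : 4 ≤ m) (g : ℕ → V)
    (h0 : g m = g 0) (hadj : ∀ i < m, G.Adj (g i) (g (i + 1)))
    (hd : ∀ i j, i ≤ j → j < m → min (j - i) (m - (j - i)) ≤ G.dist (g i) (g j)) : False := by
  refine h m hm (fun i => g (i % m)) (isoCycle_of_le G m _ ?_ ?_ ?_)
  · intro i
    simp only [Nat.add_mod_right]
  · intro i
    have hlt : i % m < m := Nat.mod_lt _ (by omega)
    have hs : g ((i + 1) % m) = g (i % m + 1) := by
      rw [Nat.add_mod, Nat.mod_eq_of_lt (show 1 < m by omega)]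
      rcases Nat.lt_or_ge (i % m + 1) m with h1 | h1
      · rw [Nat.mod_eq_of_lt h1]
      · have h2 : i % m + 1 = m := by omega
        rw [h2, Nat.mod_self, h0]
    simp only [hs]
    exact hadj _ hlt
  · intro i j hi hij hj
    simp only [Nat.mod_eq_of_lt hi]
    rcases Nat.lt_or_ge j m with h1 | h1
    · rw [Nat.mod_eq_of_lt h1]
      exact hd i j hij h1
    · have h2 : j % m = j - m := by
        rw [Nat.mod_eq_sub_mod h1, Nat.mod_eq_of_lt (by omega)]
      rw [h2]
      have := hd (j - m) i (by omega) hi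
      rw [SimpleGraph.dist_comm] at this
      omega

theorem dist_two {G : SimpleGraph V} {a b c : V} (h1 : G.Adj a b) (h2 : G.Adj b c) (hne : a ≠ c)
    (hn : ¬ G.Adj a c) : G.dist a c = 2 := by
  have hr : G.Reachable a c := h1.reachable.trans h2.reachable
  have h3 := hr.one_lt_dist_of_ne_of_not_adj hne hn
  have h4 : G.dist a c ≤ 2 := by
    have := SimpleGraph.dist_le (SimpleGraph.Walk.cons h1 (SimpleGraph.Walk.cons h2 .nil))
    simpa using this
  omega

theorem NI.c4 {G : SimpleGraph V} (h : NI G) : C4 G := by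
  intro a b c d hab hbc hcd hda hac hbd
  by_contra hcon
  push Not at hcon
  obtain ⟨n1, n2⟩ := hcon
  have d1 := dist_two hab hbc hac n1
  have d2 := dist_two hbc hcd hbd n2
  have d3 := dist_two hcd hda hac.symm (fun h => n1 h.symm)
  have d4 := dist_two hda hab hbd.symm (fun h => n2 h.symm)
  have e1 := SimpleGraph.dist_eq_one_iff_adj.2 hab
  have e2 := SimpleGraph.dist_eq_one_iff_adj.2 hbc
  have e3 := SimpleGraph.dist_eq_one_iff_adj.2 hcd
  have e4 := SimpleGraph.dist_eq_one_iff_adj.2 hda
  have e1' := SimpleGraph.dist_eq_one_iff_adj.2 hab.symm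
  have e2' := SimpleGraph.dist_eq_one_iff_adj.2 hbc.symm
  have e3' := SimpleGraph.dist_eq_one_iff_adj.2 hcd.symm
  have e4' := SimpleGraph.dist_eq_one_iff_adj.2 hda.symm
  let g : ℕ → V := fun i => match i % 4 with
    | 0 => a
    | 1 => b
    | 2 => c
    | _ => d
  have g0 : ∀ i, i % 4 = 0 → g i = a := fun i hi => by simp only [g, hi]
  have g1 : ∀ i, i % 4 = 1 → g i = b := fun i hi => by simp only [g, hi]
  have g2 : ∀ i, i % 4 = 2 → g i = c := fun i hi => by simp only [g, hi]
  have g3 : ∀ i, i % 4 = 3 → g i = d := fun i hi => by simp only [g, hi]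
  refine h 4 le_rfl g (isoCycle_of_le G 4 g ?_ ?_ ?_)
  · intro i
    simp only [g, Nat.add_mod_right]
  · intro i
    have : i % 4 = 0 ∨ i % 4 = 1 ∨ i % 4 = 2 ∨ i % 4 = 3 := by omega
    rcases this with hi | hi | hi | hi
    · rw [g0 i hi, g1 (i + 1) (by omega)]; exact hab
    · rw [g1 i hi, g2 (i + 1) (by omega)]; exact hbc
    · rw [g2 i hi, g3 (i + 1) (by omega)]; exact hcd
    · rw [g3 i hi, g0 (i + 1) (by omega)]; exact hda
  · intro i j hi hij hj
    obtain ⟨k, rfl⟩ := Nat.exists_eq_add_of_le hij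
    have hk : k < 4 := by omega
    interval_cases i <;> interval_cases k <;> simp [g, *]

theorem NI.c5 {G : SimpleGraph V} (h : NI G) : C5 G := by
  intro a b c d e hab hbc hcd hde hea hac had hbd hbe hce
  by_contra hcon
  push Not at hcon
  obtain ⟨n1, n2, n3, n4, n5⟩ := hcon
  have d1 := dist_two hab hbc hac n1
  have d2 := dist_two hbc hcd hbd n3
  have d3 := dist_two hcd hde hce n5
  have d4 := dist_two hde hea had.symm (fun h => n2 h.symm)
  have d5 := dist_two hea hab hbe.symm (fun h => n4 h.symm)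
  have d1' : G.dist c a = 2 := by rw [SimpleGraph.dist_comm]; exact d1
  have d2' : G.dist d b = 2 := by rw [SimpleGraph.dist_comm]; exact d2
  have d3' : G.dist e c = 2 := by rw [SimpleGraph.dist_comm]; exact d3
  have d4' : G.dist a d = 2 := by rw [SimpleGraph.dist_comm]; exact d4
  have d5' : G.dist b e = 2 := by rw [SimpleGraph.dist_comm]; exact d5
  have e1 := SimpleGraph.dist_eq_one_iff_adj.2 hab
  have e2 := SimpleGraph.dist_eq_one_iff_adj.2 hbc
  have e3 := SimpleGraph.dist_eq_one_iff_adj.2 hcd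
  have e4 := SimpleGraph.dist_eq_one_iff_adj.2 hde
  have e5 := SimpleGraph.dist_eq_one_iff_adj.2 hea
  have e1' := SimpleGraph.dist_eq_one_iff_adj.2 hab.symm
  have e2' := SimpleGraph.dist_eq_one_iff_adj.2 hbc.symm
  have e3' := SimpleGraph.dist_eq_one_iff_adj.2 hcd.symm
  have e4' := SimpleGraph.dist_eq_one_iff_adj.2 hde.symm
  have e5' := SimpleGraph.dist_eq_one_iff_adj.2 hea.symm
  let g : ℕ → V := fun i => match i % 5 with
    | 0 => a
    | 1 => b
    | 2 => c
    | 3 => d
    | _ => e
  have g0 : ∀ i, i % 5 = 0 → g i = a := fun i hi => by simp only [g, hi]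
  have g1 : ∀ i, i % 5 = 1 → g i = b := fun i hi => by simp only [g, hi]
  have g2 : ∀ i, i % 5 = 2 → g i = c := fun i hi => by simp only [g, hi]
  have g3 : ∀ i, i % 5 = 3 → g i = d := fun i hi => by simp only [g, hi]
  have g4 : ∀ i, i % 5 = 4 → g i = e := fun i hi => by simp only [g, hi]
  refine h 5 (by norm_num) g (isoCycle_of_le G 5 g ?_ ?_ ?_)
  · intro i
    simp only [g, Nat.add_mod_right]
  · intro i
    have : i % 5 = 0 ∨ i % 5 = 1 ∨ i % 5 = 2 ∨ i % 5 = 3 ∨ i % 5 = 4 := by omega
    rcases this with hi | hi | hi | hi | hi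
    · rw [g0 i hi, g1 (i + 1) (by omega)]; exact hab
    · rw [g1 i hi, g2 (i + 1) (by omega)]; exact hbc
    · rw [g2 i hi, g3 (i + 1) (by omega)]; exact hcd
    · rw [g3 i hi, g4 (i + 1) (by omega)]; exact hde
    · rw [g4 i hi, g0 (i + 1) (by omega)]; exact hea
  · intro i j hi hij hj
    obtain ⟨k, rfl⟩ := Nat.exists_eq_add_of_le hij
    have hk : k < 5 := by omega
    interval_cases i <;> interval_cases k <;> simp [g, *]

end Pool.Agent.R42.Br
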