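import Pool.Agent.R42.BrA

set_option autoImplicit false

/-!
Bridged graphs, part B: geodesics and the quadrangle / triangle conditions.
-/

namespace Pool.Agent.R42.Br

universe u

variable {V : Type u} {G : SimpleGraph V}

/-- `p` parametrises a geodesic of length `n` from `x` to `y`. -/
structure Geo (G : SimpleGraph V) (n : ℕ) (p : ℕ → V) (x y : V) : Prop where
  h0 : p 0 = x
  hn : p n = y
  adj : ∀ i < n, G.Adj (p i) (p (i + 1))
  len : G.dist x y = n

theorem Geo.dist (hc : G.Connected) {n : ℕ} {p : ℕ → V} {x y : V} (h : Geo G n p x y)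
    {i j : ℕ} (hij : i ≤ j) (hj : j ≤ n) : G.dist (p i) (p j) = j - i := by
  have h1 := dist_fun_le G p i j hij (fun k _ h2 => h.adj k (by omega))
  have h2 := dist_fun_le G p 0 i (by omega) (fun k _ h2 => h.adj k (by omega))
  have h3 := dist_fun_le G p j n hj (fun k _ h2 => h.adj k (by omega))
  have h4 : G.dist (p 0) (p n) ≤ G.dist (p 0) (p i) + G.dist (p i) (p n) := hc.dist_triangle
  have h5 : G.dist (p i) (p n) ≤ G.dist (p i) (p j) + G.dist (p j) (p n) := hc.dist_triangle
  have h6 := h.len
  rw [h.h0] at h4
  rw [h.hn] at h4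
  rw [h.h0] at h2
  rw [h.hn] at h3
  rw [h.hn] at h5
  omega

theorem Geo.dist_y (hc : G.Connected) {n : ℕ} {p : ℕ → V} {x y : V} (h : Geo G n p x y)
    {i : ℕ} (hi : i ≤ n) : G.dist (p i) y = n - i := by
  have := h.dist hc hi le_rfl
  rwa [h.hn] at this

theorem Geo.dist_x (hc : G.Connected) {n : ℕ} {p : ℕ → V} {x y : V} (h : Geo G n p x y)
    {i : ℕ} (hi : i ≤ n) : G.dist x (p i) = i := by
  have := h.dist hc (Nat.zero_le i) hi
  rw [h.h0] at this
  omega

theorem Geo.exists (hc : G.Connected) {n : ℕ} {x y : V} (h : G.dist x y = n) :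
    ∃ p, Geo G n p x y := by
  obtain ⟨w, hw⟩ := hc.exists_walk_length_eq_dist x y
  refine ⟨fun i => w.getVert i, ?_, ?_, ?_, h⟩
  · simp
  · have : w.length = n := by omega
    rw [← this]; simp
  · intro i hi
    exact w.adj_getVert_succ (by omega)

theorem Geo.exists_cons (hc : G.Connected) {n : ℕ} {z a y : V} (hza : G.Adj z a)
    (hz : G.dist z y = n) (ha : G.dist a y + 1 = n) : ∃ p, Geo G n p z y ∧ p 1 = a := by
  obtain ⟨p, hp⟩ := Geo.exists hc (n := n - 1) (x := a) (y := y) (by omega)
  refine ⟨fun i => if i = 0 then z else p (i - 1), ⟨by simp, ?_, ?_, hz⟩, by simp [hp.h0]⟩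
  · have : n ≠ 0 := by omega
    simp [this, hp.hn]
  · intro i hi
    rcases Nat.eq_zero_or_pos i with rfl | h
    · simp [hp.h0, hza]
    · have h1 : i ≠ 0 := by omega
      have h2 := hp.adj (i - 1) (by omega)
      have h3 : i - 1 + 1 = i := by omega
      rw [h3] at h2
      simp [h1, h2]

theorem Geo.update {n : ℕ} {p : ℕ → V} {x y : V} (h : Geo G n p x y)
    {i : ℕ} {c : V} (h0 : 0 < i) (hi : i < n) (h1 : G.Adj (p (i - 1)) c)
    (h2 : G.Adj c (p (i + 1))) : Geo G n (Function.update p i c) x y := by
  refine ⟨?_, ?_, ?_, h.len⟩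
  · rw [Function.update_of_ne (by omega)]; exact h.h0
  · rw [Function.update_of_ne (by omega)]; exact h.hn
  · intro k hk
    by_cases e1 : k = i
    · subst e1
      rw [Function.update_self, Function.update_of_ne (by omega)]
      exact h2
    · by_cases e2 : k + 1 = i
      · subst e2
        rw [Function.update_self, Function.update_of_ne (by omega)]
        exact h1
      · rw [Function.update_of_ne e1, Function.update_of_ne e2]
        exact h.adj k hk

theorem Geo.rev {n : ℕ} {p : ℕ → V} {x y : V} (h : Geo G n p x y) :
    Geo G n (fun i => p (n - i)) y x := by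
  refine ⟨by simpa using h.hn, by simpa using h.h0, ?_, by rw [SimpleGraph.dist_comm]; exact h.len⟩
  intro i hi
  have h1 := h.adj (n - (i + 1)) (by omega)
  have h2 : n - (i + 1) + 1 = n - i := by omega
  rw [h2] at h1
  exact h1.symm

/-- The triangle condition at distance `n`. -/
def T (G : SimpleGraph V) (n : ℕ) : Prop := ∀ y a b : V, G.Adj a b → G.dist a y = n →
  G.dist b y = n → ∃ c, G.Adj c a ∧ G.Adj c b ∧ G.dist c y + 1 = n

/-- The clique condition at distance `n`. -/
def Q (G : SimpleGraph V) (n : ℕ) : Prop := ∀ y z a b : V, G.Adj z a → G.Adj z b →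
  G.dist z y = n → G.dist a y + 1 = n → G.dist b y + 1 = n → a = b ∨ G.Adj a b

theorem ne_of_dist {a b y : V} (h : G.dist a y ≠ G.dist b y) : a ≠ b := by
  rintro rfl; exact h rfl

/-- Distances of adjacent vertices differ by at most one. -/
theorem adj_dist {a b : V} (h : G.Adj a b) (y : V) :
    G.dist a y ≤ G.dist b y + 1 ∧ G.dist b y ≤ G.dist a y + 1 := by
  have h1 := h.diff_dist_adj (u := y)
  rw [SimpleGraph.dist_comm (u := a), SimpleGraph.dist_comm (u := b)]
  omega

theorem not_adj_of_dist {a b y : V} (h : G.dist a y + 2 ≤ G.dist b y) : ¬ G.Adj a b := by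
  intro h1
  have := (adj_dist h1 y).2
  omega

/-- Two non-adjacent neighbours `a`, `b` of `z` one step closer to `y` have no common neighbour
`c` on their level. -/
theorem lemmaM (h4 : C4 G) (h5 : C5 G) {n : ℕ} (hT : T G n) (hQ : Q G n) {z y a b c : V}
    (hza : G.Adj z a) (hzb : G.Adj z b) (hz : G.dist z y = n + 1)
    (ha : G.dist a y = n) (hb : G.dist b y = n) (hcy : G.dist c y = n) (hac : G.Adj a c)
    (hcb : G.Adj c b) : a = b ∨ G.Adj a b := by
  by_contra hcon
  push Not at hcon
  obtain ⟨hne, hnadj⟩ := hcon
  obtain ⟨p, hpa, hpc, hp⟩ := hT y a c hac ha hcy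
  obtain ⟨q, hqc, hqb, hq⟩ := hT y c b hcb hcy hb
  have hzp : ¬ G.Adj p z := not_adj_of_dist (y := y) (by omega)
  have hzq : ¬ G.Adj q z := not_adj_of_dist (y := y) (by omega)
  have nzp : z ≠ p := ne_of_dist (G := G) (y := y) (by omega)
  have nzq : z ≠ q := ne_of_dist (G := G) (y := y) (by omega)
  have key : ∀ r, G.Adj r a → G.Adj r b → G.dist r y + 1 = n → False := by
    intro r hra hrb hr
    have h1 : ¬ G.Adj r z := not_adj_of_dist (y := y) (by omega)
    have h2 : z ≠ r := ne_of_dist (G := G) (y := y) (by omega)
    rcases h4 z a r b hza hra.symm hrb hzb.symm h2 hne with h | h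
    · exact h1 h.symm
    · exact hnadj h
  rcases hQ y c p q hpc.symm hqc.symm hcy hp hq with rfl | hpq
  · exact key p hpa hqb hp
  · have nap : a ≠ q := ne_of_dist (G := G) (y := y) (by omega)
    have npb : p ≠ b := ne_of_dist (G := G) (y := y) (by omega)
    rcases h5 z a p q b hza hpa.symm hpq hqb hzb.symm nzp nzq nap hne npb with h | h | h | h | h
    · exact hzp h.symm
    · exact hzq h.symm
    · exact key q h.symm hqb hq
    · exact hnadj h
    · exact key p hpa h hp

/-- A violation of the clique condition. -/
structure VQ (G : SimpleGraph V) (z y : V) (n : ℕ) (a b : V) : Prop where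
  za : G.Adj z a
  zb : G.Adj z b
  dz : G.dist z y = n
  da : G.dist a y + 1 = n
  db : G.dist b y + 1 = n
  ne : a ≠ b
  nadj : ¬ G.Adj a b

theorem VQ.symm {z y : V} {n : ℕ} {a b : V} (h : VQ G z y n a b) : VQ G z y n b a :=
  ⟨h.zb, h.za, h.dz, h.db, h.da, h.ne.symm, fun h1 => h.nadj h1.symm⟩

section Q

variable (hc : G.Connected) (h4 : C4 G) (h5 : C5 G) {n : ℕ} (hn : 2 ≤ n)
  (hT : ∀ k, 1 ≤ k → k < n → T G k) (hQ : ∀ k, 1 ≤ k → k < n → Q G k)

include hc h4 h5 hn hT hQ

theorem claimA {z y a b : V} (h : VQ G z y n a b) {q : ℕ → V} (hq : Geo G n q z y)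
    (hq1 : q 1 = b) {j : ℕ} (hj1 : 1 ≤ j) (hjn : j < n) : G.dist a (q j) = j + 1 := by
  have dz : G.dist z (q j) = j := hq.dist_x hc hjn.le
  have db : G.dist b (q j) = j - 1 := by rw [← hq1]; exact hq.dist hc hj1 hjn.le
  have dy : G.dist (q j) y = n - j := hq.dist_y hc hjn.le
  have t1 : G.dist a y ≤ G.dist a (q j) + G.dist (q j) y := hc.dist_triangle
  have t2 := adj_dist h.za (q j)
  have da := h.da
  have hlow : j - 1 ≤ G.dist a (q j) := by omega
  rcases Nat.lt_or_ge (G.dist a (q j)) j with h1 | h1
  · -- distance j - 1
    rcases hQ j hj1 hjn (q j) z a b h.za h.zb dz (by omega) (by omega) with h2 | h2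
    · exact absurd h2 h.ne
    · exact absurd h2 h.nadj
  · rcases Nat.lt_or_ge (G.dist a (q j)) (j + 1) with h2 | h2
    · obtain ⟨c, hcz, hca, hcj⟩ := hT j hj1 hjn (q j) z a h.za dz (by omega)
      rcases hQ j hj1 hjn (q j) z c b hcz.symm h.zb dz hcj (by omega) with h3 | h3
      · subst h3
        exact absurd hca.symm h.nadj
      · have t3 : G.dist c y ≤ G.dist c (q j) + G.dist (q j) y := hc.dist_triangle
        have t4 := adj_dist hcz y
        have dzy := h.dz
        have dcy : G.dist c y = n - 1 := by omega
        have := lemmaM h4 h5 (hT (n - 1) (by omega) (by omega)) (hQ (n - 1) (by omega) (by omega))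
          h.za h.zb (by omega) (by omega) (by have := h.db; omega) dcy hca.symm h3
        rcases this with h6 | h6
        · exact absurd h6 h.ne
        · exact absurd h6 h.nadj
    · omega

theorem claimB {z y : V} (i : ℕ) (hi : 1 ≤ i) : ∀ a b : V, VQ G z y n a b → ∀ p q : ℕ → V,
    Geo G n p z y → p 1 = a → Geo G n q z y → q 1 = b → ∀ j, 1 ≤ j → j < n → i + j ≤ n →
    G.dist (p i) (q j) = i + j := by
  induction i, hi using Nat.le_induction with
  | base =>
    intro a b h p q hp hp1 hq hq1 j hj1 hjn _
    rw [hp1, claimA hc h4 h5 hn hT hQ h hq hq1 hj1 hjn]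
    omega
  | succ i hi ih =>
    intro a b h p q hp hp1 hq hq1 j hj1 hjn hij
    have d0 : G.dist (p i) (q j) = i + j := ih a b h p q hp hp1 hq hq1 j hj1 hjn (by omega)
    have dm : G.dist (p (i - 1)) (q j) = i - 1 + j := by
      rcases Nat.lt_or_ge 1 i with h1 | h1
      · -- use the claim for i - 1 through the triangle inequality
        have a1 : G.Adj (p (i - 1)) (p i) := by
          have := hp.adj (i - 1) (by omega)
          rwa [show i - 1 + 1 = i by omega] at this
        have t1 := adj_dist a1 (q j)
        have t2 : G.dist (p (i - 1)) (q j) ≤ G.dist (p (i - 1)) z + G.dist z (q j) :=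
          hc.dist_triangle
        have t3 := hp.dist_x hc (i := i - 1) (by omega)
        rw [SimpleGraph.dist_comm] at t3
        have t4 := hq.dist_x hc hjn.le
        omega
      · have : i = 1 := by omega
        subst this
        simp only [Nat.sub_self, hp.h0, Nat.zero_add]
        exact hq.dist_x hc hjn.le
    have a1 : G.Adj (p i) (p (i - 1)) := by
      have := hp.adj (i - 1) (by omega)
      rw [show i - 1 + 1 = i by omega] at this
      exact this.symm
    have a2 : G.Adj (p i) (p (i + 1)) := hp.adj i (by omega)
    have t1 := adj_dist a2 (q j)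
    have l1 : G.dist (p (i - 1)) (p (i + 1)) = 2 := by
      rw [hp.dist hc (by omega) (by omega)]; omega
    have nne : p (i - 1) ≠ p (i + 1) := by
      intro he; rw [he, SimpleGraph.dist_self] at l1; omega
    have nadj : ¬ G.Adj (p (i - 1)) (p (i + 1)) := by
      intro he; rw [SimpleGraph.dist_eq_one_iff_adj.2 he] at l1; omega
    have hQ' := hQ (i + j) (by omega) (by omega)
    rcases Nat.lt_or_ge (G.dist (p (i + 1)) (q j)) (i + j) with h1 | h1
    · rcases hQ' (q j) (p i) (p (i - 1)) (p (i + 1)) a1 a2 d0 (by omega) (by omega) with h2 | h2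
      · exact absurd h2 nne
      · exact absurd h2 nadj
    · rcases Nat.lt_or_ge (G.dist (p (i + 1)) (q j)) (i + j + 1) with h2 | h2
      · exfalso
        obtain ⟨c, hc1, hc2, hcd⟩ := hT (i + j) (by omega) (by omega) (q j) (p i) (p (i + 1)) a2 d0
          (by omega)
        rcases hQ' (q j) (p i) (p (i - 1)) c a1 hc1.symm d0 (by omega) hcd with h3 | h3
        · subst h3
          exact nadj hc2
        · have hp' := hp.update (i := i) (c := c) (by omega) (by omega) h3 hc2
          have hself : Function.update p i c i = c := Function.update_self ..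
          rcases Nat.lt_or_ge 1 i with h6 | h6
          · have := ih a b h (Function.update p i c) q hp'
              (by rw [Function.update_of_ne (by omega)]; exact hp1) hq hq1 j hj1 hjn (by omega)
            rw [hself] at this
            omega
          · have hi1 : i = 1 := by omega
            subst hi1
            have hcy : G.dist c y + 1 = n := by
              have := hp'.dist_y hc (i := 1) (by omega)
              rw [hself] at this
              omega
            have hzc : G.Adj z c := by
              have := hp'.adj 0 (by omega)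
              rw [hp'.h0] at this
              simpa using this
            have hcne : c ≠ b := by
              rintro rfl
              exact h.nadj (by rw [← hp1]; exact hc1.symm)
            have hcb : ¬ G.Adj c b := by
              intro h7
              have h8 := h.dz
              have h9 := h.da
              have h10 := h.db
              have := lemmaM h4 h5 (hT (n - 1) (by omega) (by omega))
                (hQ (n - 1) (by omega) (by omega)) (y := y) (c := c)
                h.za h.zb (by omega) (by omega) (by omega) (by omega)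
                (by rw [← hp1]; exact hc1.symm) h7
              rcases this with h6 | h6
              · exact absurd h6 h.ne
              · exact absurd h6 h.nadj
            have hv : VQ G z y n c b := ⟨hzc, h.zb, h.dz, hcy, h.db, hcne, hcb⟩
            have := ih c b hv (Function.update p 1 c) q hp' hself hq hq1 j hj1 hjn (by omega)
            rw [hself] at this
            omega
      · omega

theorem stepQ (hNI : NI G) : Q G n := by
  intro y z a b hza hzb dz da db
  by_contra hcon
  push Not at hcon
  have h : VQ G z y n a b := ⟨hza, hzb, dz, da, db, hcon.1, hcon.2⟩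
  obtain ⟨p, hp, hp1⟩ := Geo.exists_cons hc hza dz da
  obtain ⟨q, hq, hq1⟩ := Geo.exists_cons hc hzb dz db
  have B := fun i hi j hj1 hjn hij =>
    claimB hc h4 h5 hn hT hQ i hi a b h p q hp hp1 hq hq1 j hj1 hjn hij
  -- the reversed violation
  have e1 : G.dist (p (n - 1)) (q 1) = n := by
    have := B (n - 1) (by omega) 1 le_rfl (by omega) (by omega)
    omega
  have e2 : G.dist (q (n - 1)) (q 1) = n - 2 := by
    rw [SimpleGraph.dist_comm, hq.dist hc (by omega) (by omega)]; omega
  have v' : VQ G y z n (p (n - 1)) (q (n - 1)) := by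
    refine ⟨?_, ?_, by rw [SimpleGraph.dist_comm]; exact dz, ?_, ?_, ?_, ?_⟩
    · have := hp.rev.adj 0 (by omega)
      simpa [hp.hn] using this
    · have := hq.rev.adj 0 (by omega)
      simpa [hq.hn] using this
    · rw [SimpleGraph.dist_comm, hp.dist_x hc (by omega)]; omega
    · rw [SimpleGraph.dist_comm, hq.dist_x hc (by omega)]; omega
    · intro he
      rw [he] at e1
      omega
    · intro he
      have := adj_dist he (q 1)
      omega
  have B' := fun i hi j hj1 hjn hij =>
    claimB hc h4 h5 hn hT hQ i hi _ _ v' _ _ hp.rev rfl hq.rev rfl j hj1 hjn hij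
  have key : ∀ i j, 1 ≤ i → i < n → 1 ≤ j → j < n →
      G.dist (p i) (q j) = min (i + j) (2 * n - i - j) := by
    intro i j hi hi' hj hj'
    rcases Nat.lt_or_ge n (i + j) with h1 | h1
    · have := B' (n - i) (by omega) (n - j) (by omega) (by omega) (by omega)
      rw [show n - (n - i) = i by omega, show n - (n - j) = j by omega] at this
      omega
    · have := B i hi j hj hj' h1
      omega
  -- the isometric cycle of length 2n
  refine hNI.no_cycle (m := 2 * n) (by omega) (fun k => if k ≤ n then p k else q (2 * n - k)) ?_ ?_ ?_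
  · simp only [Nat.sub_self, hq.h0, Nat.zero_le, if_true, hp.h0]
    rw [if_neg (by omega)]
  · intro r hr
    by_cases h1 : r + 1 ≤ n
    · rw [if_pos h1, if_pos (by omega)]
      exact hp.adj r (by omega)
    · rw [if_neg h1]
      by_cases h2 : r ≤ n
      · have h3 : r = n := by omega
        rw [if_pos h2, h3, hp.hn]
        have := hq.rev.adj 0 (by omega)
        simp only [Nat.sub_zero, hq.hn, Nat.zero_add] at this
        rw [show 2 * n - (n + 1) = n - 1 by omega]
        exact this
      · rw [if_neg h2]
        have := hq.adj (2 * n - (r + 1)) (by omega)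
        rw [show 2 * n - (r + 1) + 1 = 2 * n - r by omega] at this
        exact this.symm
  · intro i j hij hj
    by_cases h1 : i ≤ n
    · rw [if_pos h1]
      by_cases h2 : j ≤ n
      · rw [if_pos h2, hp.dist hc hij h2]
        omega
      · rw [if_neg h2]
        rcases Nat.eq_zero_or_pos i with rfl | h3
        · rw [hp.h0, hq.dist_x hc (by omega)]; omega
        · rcases Nat.eq_or_lt_of_le h1 with rfl | h4
          · rw [hp.hn, SimpleGraph.dist_comm, hq.dist_y hc (by omega)]; omega
          · rw [key i (2 * n - j) h3 h4 (by omega) (by omega)]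
            omega
    · rw [if_neg h1, if_neg (by omega), SimpleGraph.dist_comm, hq.dist hc (by omega) (by omega)]
      omega

end Q

/-- A violation of the triangle condition. -/
structure VT (G : SimpleGraph V) (y : V) (n : ℕ) (a b : V) : Prop where
  ab : G.Adj a b
  da : G.dist a y = n
  db : G.dist b y = n
  no : ∀ c, G.Adj c a → G.Adj c b → G.dist c y + 1 ≠ n

theorem VT.symm {y : V} {n : ℕ} {a b : V} (h : VT G y n a b) : VT G y n b a :=
  ⟨h.ab.symm, h.db, h.da, fun c h1 h2 => h.no c h2 h1⟩

section T

variable (hc : G.Connected) (h4 : C4 G) {n : ℕ} (hn : 2 ≤ n)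
  (hT : ∀ k, 1 ≤ k → k < n → T G k) (hQ : ∀ k, 1 ≤ k → k ≤ n → Q G k)

include hc hT

theorem claimA' {y a b : V} (h : VT G y n a b) {q : ℕ → V} (hq : Geo G n q b y)
    {j : ℕ} (hjn : j < n) : G.dist a (q j) = j + 1 := by
  rcases Nat.eq_zero_or_pos j with rfl | hj
  · rw [hq.h0, SimpleGraph.dist_eq_one_iff_adj.2 h.ab]
  have db : G.dist b (q j) = j := hq.dist_x hc hjn.le
  have dy : G.dist (q j) y = n - j := hq.dist_y hc hjn.le
  have t1 : G.dist a y ≤ G.dist a (q j) + G.dist (q j) y := hc.dist_triangle
  have t2 := adj_dist h.ab (q j)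
  have da := h.da
  by_contra hcon
  obtain ⟨c, hca, hcb, hcd⟩ := hT j hj hjn (q j) a b h.ab (by omega) db
  have t3 : G.dist c y ≤ G.dist c (q j) + G.dist (q j) y := hc.dist_triangle
  have t4 := adj_dist hca y
  exact h.no c hca hcb (by omega)

include h4 hn hQ

theorem claimB' {y : V} (i : ℕ) : ∀ a b : V, VT G y n a b → ∀ p q : ℕ → V,
    Geo G n p a y → Geo G n q b y → ∀ j, i + j + 1 ≤ n →
    G.dist (p i) (q j) = i + j + 1 := by
  induction i with
  | zero =>
    intro a b h p q hp hq j hij
    rw [hp.h0, claimA' hc hT h hq (by omega)]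
    omega
  | succ i ih =>
    intro a b h p q hp hq j hij
    have d0 : G.dist (p i) (q j) = i + j + 1 := ih a b h p q hp hq j (by omega)
    have a2 : G.Adj (p i) (p (i + 1)) := hp.adj i (by omega)
    have t1 := adj_dist a2 (q j)
    rcases Nat.eq_zero_or_pos i with hi | hi
    · subst hi
      rw [hp.h0] at a2 t1 d0
      simp only [Nat.zero_add] at *
      have dbj : G.dist b (q j) = j := hq.dist_x hc (by omega)
      have dp1 : G.dist (p 1) y + 1 = n := by rw [hp.dist_y hc (by omega)]; omega
      have nadj : ¬ G.Adj b (p 1) := fun h1 => h.no (p 1) a2.symm h1.symm dp1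
      have nne : b ≠ p 1 := ne_of_dist (G := G) (y := y) (by have := h.db; omega)
      have hQ' := hQ (j + 1) (by omega) (by omega)
      rcases Nat.lt_or_ge (G.dist (p 1) (q j)) (j + 1) with h1 | h1
      · rcases hQ' (q j) a b (p 1) h.ab a2 d0 (by omega) (by omega) with h2 | h2
        · exact absurd h2 nne
        · exact absurd h2 nadj
      · rcases Nat.lt_or_ge (G.dist (p 1) (q j)) (j + 2) with h2 | h2
        · exfalso
          obtain ⟨c, hc1, hc2, hcd⟩ := hT (j + 1) (by omega) (by omega) (q j) a (p 1) a2 d0
            (by omega)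
          rcases hQ' (q j) a b c h.ab hc1.symm d0 (by omega) hcd with h3 | h3
          · subst h3
            exact nadj hc2
          · have t3 : G.dist c y ≤ G.dist c (q j) + G.dist (q j) y := hc.dist_triangle
            have t4 := adj_dist hc1 y
            have t5 := hq.dist_y hc (i := j) (by omega)
            have t6 := h.da
            have hne := h.no c hc1 h3.symm
            have hcy : G.dist c y = n := by omega
            have hv : VT G y n c b := by
              refine ⟨h3.symm, hcy, h.db, ?_⟩
              intro e hec heb hey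
              have hpe : p 1 = e ∨ G.Adj (p 1) e :=
                hQ n (by omega) le_rfl y c (p 1) e hc2 hec.symm hcy dp1 hey
              rcases hpe with h7 | h7
              · rw [← h7] at heb
                exact nadj heb.symm
              · rcases h4 a (p 1) e b a2 h7 heb h.ab.symm
                  (ne_of_dist (G := G) (y := y) (by omega)) nne.symm with h8 | h8
                · exact h.no e h8.symm heb hey
                · exact nadj h8.symm
            have := claimA' hc hT hv hq (j := j) (by omega)
            omega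
        · omega
    · have dm : G.dist (p (i - 1)) (q j) = i + j := by
        have a1 : G.Adj (p (i - 1)) (p i) := by
          have := hp.adj (i - 1) (by omega)
          rwa [show i - 1 + 1 = i by omega] at this
        have t1 := adj_dist a1 (q j)
        have t2 : G.dist (p (i - 1)) (q j) ≤ G.dist (p (i - 1)) a + G.dist a (q j) :=
          hc.dist_triangle
        have t3 := hp.dist_x hc (i := i - 1) (by omega)
        rw [SimpleGraph.dist_comm] at t3
        have t4 := claimA' hc hT h hq (j := j) (by omega)
        omega
      have a1 : G.Adj (p i) (p (i - 1)) := by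
        have := hp.adj (i - 1) (by omega)
        rw [show i - 1 + 1 = i by omega] at this
        exact this.symm
      have l1 : G.dist (p (i - 1)) (p (i + 1)) = 2 := by
        rw [hp.dist hc (by omega) (by omega)]; omega
      have nne : p (i - 1) ≠ p (i + 1) := by
        intro he; rw [he, SimpleGraph.dist_self] at l1; omega
      have nadj : ¬ G.Adj (p (i - 1)) (p (i + 1)) := by
        intro he; rw [SimpleGraph.dist_eq_one_iff_adj.2 he] at l1; omega
      have hQ' := hQ (i + j + 1) (by omega) (by omega)
      rcases Nat.lt_or_ge (G.dist (p (i + 1)) (q j)) (i + j + 1) with h1 | h1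
      · rcases hQ' (q j) (p i) (p (i - 1)) (p (i + 1)) a1 a2 d0 (by omega) (by omega) with h2 | h2
        · exact absurd h2 nne
        · exact absurd h2 nadj
      · rcases Nat.lt_or_ge (G.dist (p (i + 1)) (q j)) (i + j + 2) with h2 | h2
        · exfalso
          obtain ⟨c, hc1, hc2, hcd⟩ := hT (i + j + 1) (by omega) (by omega) (q j) (p i) (p (i + 1))
            a2 d0 (by omega)
          rcases hQ' (q j) (p i) (p (i - 1)) c a1 hc1.symm d0 (by omega) hcd with h3 | h3
          · subst h3
            exact nadj hc2
          · have hp' := hp.update (i := i) (c := c) (by omega) (by omega) h3 hc2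
            have hself : Function.update p i c i = c := Function.update_self ..
            have := ih a b h (Function.update p i c) q hp' hq j (by omega)
            rw [hself] at this
            omega
        · omega

/-- The last vertices before `y`. -/
theorem claimC {y a b : V} (h : VT G y n a b) {p q : ℕ → V} (hp : Geo G n p a y)
    (hq : Geo G n q b y) {j : ℕ} (hj : 1 ≤ j) (hjn : j < n) :
    G.dist (p (n - 1)) (q (n - j)) = j + 1 := by
  have dyj : G.dist y (q (n - j)) = j := by
    rw [SimpleGraph.dist_comm, hq.dist_y hc (by omega)]; omega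
  have ay : G.Adj y (p (n - 1)) := by
    have := hp.rev.adj 0 (by omega)
    simpa [hp.hn] using this
  have t1 := adj_dist ay (q (n - j))
  have e1 : G.dist (p (n - 1)) b = n := by
    have := claimB' hc h4 hn hT hQ (n - 1) a b h p q hp hq 0 (by omega)
    rw [hq.h0] at this
    omega
  have e2 : G.dist (q (n - j)) b = n - j := by
    rw [SimpleGraph.dist_comm]; exact hq.dist_x hc (by omega)
  have t2 : G.dist (p (n - 1)) b ≤ G.dist (p (n - 1)) (q (n - j)) + G.dist (q (n - j)) b :=
    hc.dist_triangle
  by_contra hcon
  obtain ⟨c, hcy, hcp, hcd⟩ := hT j hj hjn (q (n - j)) y (p (n - 1)) ay dyj (by omega)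
  have t3 : G.dist c b ≤ G.dist c (q (n - j)) + G.dist (q (n - j)) b := hc.dist_triangle
  have dyb : G.dist y b = n := by rw [SimpleGraph.dist_comm]; exact h.db
  have dya : G.dist y a = n := by rw [SimpleGraph.dist_comm]; exact h.da
  have t4 := adj_dist hcy b
  have t5 := adj_dist hcy a
  have t6 : G.dist c a ≤ G.dist c b + G.dist b a := hc.dist_triangle
  have t7 : G.dist b a = 1 := SimpleGraph.dist_eq_one_iff_adj.2 h.ab.symm
  have dcb : G.dist c b = n - 1 := by omega
  rcases Nat.lt_or_ge (G.dist c a) n with h1 | h1
  · obtain ⟨e, hea, heb, hec⟩ := hT (n - 1) (by omega) (by omega) c a b h.ab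
      (by rw [SimpleGraph.dist_comm]; omega) (by rw [SimpleGraph.dist_comm]; omega)
    have t8 : G.dist e y ≤ G.dist e c + G.dist c y := hc.dist_triangle
    have t9 : G.dist c y = 1 := SimpleGraph.dist_eq_one_iff_adj.2 hcy
    have t10 := adj_dist hea y
    have := h.da
    exact h.no e hea heb (by omega)
  · obtain ⟨r, hr⟩ := Geo.exists hc (n := n - 1) (x := c) (y := b) dcb
    have a1 : G.Adj c (r 1) := by
      have := hr.adj 0 (by omega)
      rwa [hr.h0] at this
    have d1 : G.dist (r 1) b = n - 2 := by rw [hr.dist_y hc (by omega)]; omega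
    have t8 : G.dist (r 1) a ≤ G.dist (r 1) b + G.dist b a := hc.dist_triangle
    have t9 := adj_dist a1 a
    have d2 : G.dist (p (n - 1)) a + 1 = n := by
      rw [SimpleGraph.dist_comm, hp.dist_x hc (by omega)]; omega
    rcases hQ n (by omega) le_rfl a c (p (n - 1)) (r 1) hcp a1 (by omega) d2 (by omega) with h2 | h2
    · rw [h2] at e1; omega
    · have := adj_dist h2 b
      omega

theorem claimD {y a b : V} (h : VT G y n a b) (i : ℕ) (hi : 1 ≤ i) : ∀ p q : ℕ → V,
    Geo G n p a y → Geo G n q b y → ∀ j, 1 ≤ j → j < n → i + j ≤ n →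
    G.dist (p (n - i)) (q (n - j)) = i + j := by
  induction i, hi using Nat.le_induction with
  | base =>
    intro p q hp hq j hj1 hjn _
    rw [claimC hc h4 hn hT hQ h hp hq hj1 hjn]
    omega
  | succ i hi ih =>
    intro p q hp hq j hj1 hjn hij
    have d0 : G.dist (p (n - i)) (q (n - j)) = i + j := ih p q hp hq j hj1 hjn (by omega)
    have a1 : G.Adj (p (n - i)) (p (n - i + 1)) := hp.adj (n - i) (by omega)
    have a2 : G.Adj (p (n - i)) (p (n - i - 1)) := by
      have := hp.adj (n - i - 1) (by omega)
      rw [show n - i - 1 + 1 = n - i by omega] at this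
      exact this.symm
    have e : n - (i + 1) = n - i - 1 := by omega
    rw [e]
    have dm : G.dist (p (n - i + 1)) (q (n - j)) = i - 1 + j := by
      have t1 := adj_dist a1 (q (n - j))
      have t2 : G.dist (p (n - i + 1)) (q (n - j)) ≤ G.dist (p (n - i + 1)) y +
        G.dist y (q (n - j)) := hc.dist_triangle
      have t3 := hp.dist_y hc (i := n - i + 1) (by omega)
      have t4 := hq.dist_y hc (i := n - j) (by omega)
      rw [SimpleGraph.dist_comm] at t4
      omega
    have t1 := adj_dist a2 (q (n - j))
    have l1 : G.dist (p (n - i - 1)) (p (n - i + 1)) = 2 := by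
      rw [hp.dist hc (by omega) (by omega)]; omega
    have nne : p (n - i - 1) ≠ p (n - i + 1) := by
      intro he; rw [he, SimpleGraph.dist_self] at l1; omega
    have nadj : ¬ G.Adj (p (n - i - 1)) (p (n - i + 1)) := by
      intro he; rw [SimpleGraph.dist_eq_one_iff_adj.2 he] at l1; omega
    have hQ' := hQ (i + j) (by omega) (by omega)
    rcases Nat.lt_or_ge (G.dist (p (n - i - 1)) (q (n - j))) (i + j) with h1 | h1
    · rcases hQ' (q (n - j)) (p (n - i)) (p (n - i - 1)) (p (n - i + 1)) a2 a1 d0 (by omega)
        (by omega) with h2 | h2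
      · exact absurd h2 nne
      · exact absurd h2 nadj
    · rcases Nat.lt_or_ge (G.dist (p (n - i - 1)) (q (n - j))) (i + j + 1) with h2 | h2
      · exfalso
        obtain ⟨c, hc1, hc2, hcd⟩ := hT (i + j) (by omega) (by omega) (q (n - j)) (p (n - i))
          (p (n - i - 1)) a2 d0 (by omega)
        rcases hQ' (q (n - j)) (p (n - i)) c (p (n - i + 1)) hc1.symm a1 d0 hcd (by omega)
          with h3 | h3
        · subst h3
          exact nadj hc2.symm
        · have hp' := hp.update (i := n - i) (c := c) (by omega) (by omega) hc2.symm h3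
          have hself : Function.update p (n - i) c (n - i) = c := Function.update_self ..
          have := ih (Function.update p (n - i) c) q hp' hq j hj1 hjn (by omega)
          rw [hself] at this
          omega
      · omega

theorem stepT (hNI : NI G) : T G n := by
  intro y a b hab da db
  by_contra hcon
  push Not at hcon
  have h : VT G y n a b := ⟨hab, da, db, hcon⟩
  obtain ⟨p, hp⟩ := Geo.exists hc da
  obtain ⟨q, hq⟩ := Geo.exists hc db
  have key : ∀ i j, i < n → j < n →
      G.dist (p i) (q j) = min (i + j + 1) (2 * n - i - j) := by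
    intro i j hi hj
    rcases Nat.lt_or_ge n (i + j + 1) with h1 | h1
    · rcases Nat.eq_zero_or_pos j with rfl | hj0
      · omega
      · have := claimD hc h4 hn hT hQ h (n - i) (by omega) p q hp hq (n - j) (by omega) (by omega)
          (by omega)
        rw [show n - (n - i) = i by omega, show n - (n - j) = j by omega] at this
        omega
    · have := claimB' hc h4 hn hT hQ i a b h p q hp hq j h1
      omega
  refine hNI.no_cycle (m := 2 * n + 1) (by omega)
    (fun k => if k ≤ n then p k else if k ≤ 2 * n then q (2 * n - k) else a) ?_ ?_ ?_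
  · simp only [Nat.zero_le, if_true, hp.h0]
    rw [if_neg (by omega), if_neg (by omega)]
  · intro r hr
    by_cases h1 : r + 1 ≤ n
    · rw [if_pos h1, if_pos (by omega)]
      exact hp.adj r (by omega)
    · rw [if_neg h1]
      by_cases h2 : r ≤ n
      · have h3 : r = n := by omega
        rw [if_pos h2, h3, hp.hn, if_pos (by omega)]
        have := hq.rev.adj 0 (by omega)
        simp only [Nat.sub_zero, hq.hn, Nat.zero_add] at this
        rw [show 2 * n - (n + 1) = n - 1 by omega]
        exact this
      · rw [if_neg h2, if_pos (by omega)]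
        by_cases h3 : r + 1 ≤ 2 * n
        · rw [if_pos h3]
          have := hq.adj (2 * n - (r + 1)) (by omega)
          rw [show 2 * n - (r + 1) + 1 = 2 * n - r by omega] at this
          exact this.symm
        · rw [if_neg h3, show 2 * n - r = 0 by omega, hq.h0]
          exact hab.symm
  · intro i j hij hj
    by_cases h1 : i ≤ n
    · rw [if_pos h1]
      by_cases h2 : j ≤ n
      · rw [if_pos h2, hp.dist hc hij h2]
        omega
      · rw [if_neg h2, if_pos (by omega)]
        rcases Nat.eq_or_lt_of_le h1 with rfl | h4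
        · rw [hp.hn, SimpleGraph.dist_comm, hq.dist_y hc (by omega)]; omega
        · rw [key i (2 * n - j) h4 (by omega)]
          omega
    · rw [if_neg h1, if_pos (by omega), if_neg (by omega), if_pos (by omega),
        SimpleGraph.dist_comm, hq.dist hc (by omega) (by omega)]
      omega

end T

/-- In a connected graph without isometric cycles of length at least four, the triangle and clique
conditions hold. -/
theorem TQ_connected (hc : G.Connected) (hNI : NI G) (n : ℕ) (hn : 1 ≤ n) : T G n ∧ Q G n := by
  induction n using Nat.strong_induction_on with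
  | _ n ih =>
    rcases Nat.eq_or_lt_of_le hn with h1 | h1
    · subst h1
      have e0 : ∀ a y : V, G.dist a y + 1 = 1 → a = y := by
        intro a y h
        exact hc.dist_eq_zero_iff.1 (by omega)
      refine ⟨?_, ?_⟩
      · intro y a b hab da db
        rw [SimpleGraph.dist_eq_one_iff_adj] at da db
        exact ⟨y, da.symm, db.symm, by simp⟩
      · intro y z a b hza hzb dz da db
        left
        rw [e0 a y da, e0 b y db]
    · have hQ : Q G n := stepQ hc hNI.c4 hNI.c5 h1 (fun k h2 h3 => (ih k h3 h2).1)
        (fun k h2 h3 => (ih k h3 h2).2) hNI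
      refine ⟨?_, hQ⟩
      refine stepT hc hNI.c4 h1 (fun k h2 h3 => (ih k h3 h2).1) (fun k h2 h3 => ?_) hNI
      rcases Nat.eq_or_lt_of_le h3 with rfl | h4
      · exact hQ
      · exact (ih k h4 h2).2

end Pool.Agent.R42.Br
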