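import Pool.Agent.R42.BrB

set_option autoImplicit false

/-!
Bridged graphs, part C: transfer to components and conversions from and to walks.
-/

namespace Pool.Agent.R42.Br

universe u

variable {V : Type u} {G : SimpleGraph V}

theorem walk_getVert (G : SimpleGraph V) (f : ℕ → V) (n : ℕ)
    (h : ∀ k < n, G.Adj (f k) (f (k + 1))) :
    ∃ p : G.Walk (f 0) (f n), p.length = n ∧ ∀ i ≤ n, p.getVert i = f i := by
  induction n generalizing f with
  | zero => exact ⟨SimpleGraph.Walk.nil, rfl, fun i hi => by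
      have : i = 0 := by omega
      subst this; simp⟩
  | succ n ih =>
    obtain ⟨p, hp, hg⟩ := ih (fun i => f (i + 1)) (fun k hk => h (k + 1) (by omega))
    refine ⟨SimpleGraph.Walk.cons (h 0 (by omega)) p, by simp [hp], ?_⟩
    intro i hi
    cases i with
    | zero => simp
    | succ i => rw [SimpleGraph.Walk.getVert_cons_succ]; exact hg i (by omega)

/-- The walk form of the bridged property implies that there is no isometric cycle of length at
least four. -/
theorem NI_of_cycles (h : ∀ (u : V) (c : G.Walk u u), c.IsCycle → 4 ≤ c.length →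
        ∃ i j : ℕ, i ≤ j ∧ j < c.length ∧
          G.dist (c.getVert i) (c.getVert j) < min (j - i) (c.length - (j - i))) : NI G := by
  intro m hm f hf
  obtain ⟨p, hp, hg⟩ := walk_getVert G f m (fun k _ => hf.2.1 k)
  have h0 : f m = f 0 := by simpa using hf.1 0
  have hinj : ∀ i j, i < j → j < i + m → f i ≠ f j := by
    intro i j hij hj he
    have := hf.2.2 i j hij.le hj.le
    rw [he, SimpleGraph.dist_self] at this
    omega
  let c : G.Walk (f 0) (f 0) := p.copy rfl h0
  have hcl : c.length = m := by simp [c, hp]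
  have hcg : ∀ i ≤ m, c.getVert i = f i := by
    intro i hi
    simp only [c, SimpleGraph.Walk.getVert_copy]
    exact hg i hi
  have hcyc : c.IsCycle := by
    rw [SimpleGraph.Walk.isCycle_iff_isPath_tail_and_le_length]
    refine ⟨?_, by omega⟩
    rw [← SimpleGraph.Walk.IsPath.getVert_injOn_iff]
    have htl : c.tail.length = m - 1 := by
      have hnn : ¬ c.Nil := by
        rw [← SimpleGraph.Walk.length_eq_zero_iff]; omega
      have := SimpleGraph.Walk.length_tail_add_one hnn
      omega
    intro i hi j hj hij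
    simp only [Set.mem_ofPred_eq, htl] at hi hj
    rw [SimpleGraph.Walk.getVert_tail, SimpleGraph.Walk.getVert_tail, hcg _ (by omega),
      hcg _ (by omega)] at hij
    by_contra hne
    rcases Nat.lt_or_gt_of_ne hne with h1 | h1
    · exact hinj (i + 1) (j + 1) (by omega) (by omega) hij
    · exact hinj (j + 1) (i + 1) (by omega) (by omega) hij.symm
  obtain ⟨i, j, hij, hj, hd⟩ := h (f 0) c hcyc (by omega)
  rw [hcl] at hj hd
  rw [hcg i (by omega), hcg j (by omega), hf.2.2 i j hij (by omega)] at hd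
  exact lt_irrefl _ hd

/-- The distance in the subgraph induced on a component. -/
theorem dist_comp (y : V) (x x' : {x | G.Reachable y x}) :
    (G.induce {x | G.Reachable y x}).dist x x' = G.dist x.1 x'.1 := by
  classical
  have hr : G.Reachable x.1 x'.1 := x.2.symm.trans x'.2
  have key : ∀ w : G.Walk x.1 x'.1, ∃ w' : (G.induce {x | G.Reachable y x}).Walk x x',
      w'.length = w.length := by
    intro w
    have hw : ∀ z ∈ w.support, z ∈ {x | G.Reachable y x} := by
      intro z hz
      exact x.2.trans (w.takeUntil z hz).reachable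
    refine ⟨w.induce _ hw, ?_⟩
    have := SimpleGraph.Walk.length_support (w.induce _ hw)
    rw [SimpleGraph.Walk.support_induce, List.length_attachWith] at this
    have h2 := SimpleGraph.Walk.length_support w
    omega
  obtain ⟨w, hw⟩ := hr.exists_walk_length_eq_dist
  obtain ⟨w', hw'⟩ := key w
  apply le_antisymm
  · rw [← hw, ← hw']
    exact SimpleGraph.dist_le w'
  · obtain ⟨v, hv⟩ := w'.reachable.exists_walk_length_eq_dist
    rw [← hv]
    have := SimpleGraph.dist_le (v.map (SimpleGraph.Embedding.induce _).toHom)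
    rw [SimpleGraph.Walk.length_map] at this
    exact this

theorem connected_comp (y : V) : (G.induce {x | G.Reachable y x}).Connected := by
  classical
  have : ∀ x : {x | G.Reachable y x}, (G.induce {x | G.Reachable y x}).Reachable
      ⟨y, SimpleGraph.Reachable.refl y⟩ x := by
    intro x
    obtain ⟨w⟩ := x.2
    have hw : ∀ z ∈ w.support, z ∈ {x | G.Reachable y x} := by
      intro z hz
      exact (w.takeUntil z hz).reachable
    exact (w.induce _ hw).reachable
  exact { preconnected := fun a b => (this a).symm.trans (this b)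
          nonempty := ⟨⟨y, SimpleGraph.Reachable.refl y⟩⟩ }

theorem NI_comp (h : NI G) (y : V) : NI (G.induce {x | G.Reachable y x}) := by
  intro m hm f hf
  refine h m hm (fun i => (f i).1) ⟨fun i => by simp only [hf.1], fun i => hf.2.1 i, fun i j hij hj => ?_⟩
  rw [← hf.2.2 i j hij hj, dist_comp]

/-- The triangle condition in an arbitrary graph without isometric cycles of length `≥ 4`. -/
theorem NI.T (h : NI G) {n : ℕ} {y a b : V} (hab : G.Adj a b) (ha : G.dist a y = n + 1)
    (hb : G.dist b y = n + 1) : ∃ c, G.Adj c a ∧ G.Adj c b ∧ G.dist c y = n := by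
  have hra : G.Reachable a y := SimpleGraph.Reachable.of_dist_ne_zero (by omega)
  have hrb : G.Reachable b y := SimpleGraph.Reachable.of_dist_ne_zero (by omega)
  obtain ⟨c, h1, h2, h3⟩ := (TQ_connected (connected_comp y) (NI_comp h y) (n + 1) (by omega)).1
    ⟨y, SimpleGraph.Reachable.refl y⟩ ⟨a, hra.symm⟩ ⟨b, hrb.symm⟩ hab
    (by rw [dist_comp]; exact ha) (by rw [dist_comp]; exact hb)
  rw [dist_comp] at h3
  simp only at h3
  exact ⟨c.1, h1, h2, by omega⟩

/-- The clique condition in an arbitrary graph without isometric cycles of length `≥ 4`. -/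
theorem NI.Q (h : NI G) {n : ℕ} {y z a b : V} (hza : G.Adj z a) (hzb : G.Adj z b)
    (hz : G.dist z y = n + 1) (ha : G.dist a y = n) (hb : G.dist b y = n) : a = b ∨ G.Adj a b := by
  have hrz : G.Reachable y z := (SimpleGraph.Reachable.of_dist_ne_zero (by omega)).symm
  have hra : G.Reachable y a := hrz.trans hza.reachable
  have hrb : G.Reachable y b := hrz.trans hzb.reachable
  rcases (TQ_connected (connected_comp y) (NI_comp h y) (n + 1) (by omega)).2
    ⟨y, SimpleGraph.Reachable.refl y⟩ ⟨z, hrz⟩ ⟨a, hra⟩ ⟨b, hrb⟩ hza hzb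
    (by rw [dist_comp]; exact hz) (by rw [dist_comp]; simp only; omega)
    (by rw [dist_comp]; simp only; omega) with h1 | h1
  · left
    exact congrArg Subtype.val h1
  · exact Or.inr h1

/-- The spanning subgraph with the edges inside `F`. -/
def GT (G : SimpleGraph V) (F : Set V) : SimpleGraph V where
  Adj x y := G.Adj x y ∧ x ∈ F ∧ y ∈ F
  symm := ⟨fun _ _ h => ⟨h.1.symm, h.2.2, h.2.1⟩⟩
  loopless := ⟨fun x h => G.loopless.irrefl x h.1⟩

theorem GT_adj {F : Set V} {x y : V} : (GT G F).Adj x y ↔ G.Adj x y ∧ x ∈ F ∧ y ∈ F := Iff.rfl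

theorem GT_le (F : Set V) : GT G F ≤ G := fun _ _ h => h.1

theorem GT_mono {F F' : Set V} (h : F ⊆ F') : GT G F ≤ GT G F' :=
  fun _ _ h1 => ⟨h1.1, h h1.2.1, h h1.2.2⟩

theorem GT_c4 (h : C4 G) (F : Set V) : C4 (GT G F) := by
  intro a b c d h1 h2 h3 h4 hac hbd
  rcases h a b c d h1.1 h2.1 h3.1 h4.1 hac hbd with h5 | h5
  · exact Or.inl ⟨h5, h1.2.1, h2.2.2⟩
  · exact Or.inr ⟨h5, h1.2.2, h3.2.2⟩

theorem GT_c5 (h : C5 G) (F : Set V) : C5 (GT G F) := by
  intro a b c d e h1 h2 h3 h4 h5 n1 n2 n3 n4 n5
  have ha := h1.2.1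
  have hb := h1.2.2
  have hc := h2.2.2
  have hd := h3.2.2
  have he := h4.2.2
  rcases h a b c d e h1.1 h2.1 h3.1 h4.1 h5.1 n1 n2 n3 n4 n5 with h6 | h6 | h6 | h6 | h6
  · exact Or.inl ⟨h6, ha, hc⟩
  · exact Or.inr (Or.inl ⟨h6, ha, hd⟩)
  · exact Or.inr (Or.inr (Or.inl ⟨h6, hb, hd⟩))
  · exact Or.inr (Or.inr (Or.inr (Or.inl ⟨h6, hb, he⟩)))
  · exact Or.inr (Or.inr (Or.inr (Or.inr ⟨h6, hc, he⟩)))

/-- Walks of the induced subgraph give walks in `GT G F`. -/
theorem dist_GT_le {F : Set V} (x y : F) (h : (G.induce F).Reachable x y) :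
    (GT G F).dist x.1 y.1 ≤ (G.induce F).dist x y := by
  obtain ⟨w, hw⟩ := h.exists_walk_length_eq_dist
  let φ : G.induce F →g GT G F := ⟨Subtype.val, fun {a b} hab => ⟨hab, a.2, b.2⟩⟩
  rw [← hw]
  have := SimpleGraph.dist_le (w.map φ)
  rw [SimpleGraph.Walk.length_map] at this
  exact this

/-- `NI (GT G F)` gives the walk form of the bridged property for the induced subgraph. -/
theorem cycles_of_NI {F : Set V} (h : NI (GT G F)) (u : F) (c : (G.induce F).Walk u u) (h4 : 4 ≤ c.length) :
    ∃ i j : ℕ, i ≤ j ∧ j < c.length ∧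
      (G.induce F).dist (c.getVert i) (c.getVert j) < min (j - i) (c.length - (j - i)) := by
  by_contra hcon
  push Not at hcon
  have hadj : ∀ i < c.length, (GT G F).Adj (c.getVert i).1 (c.getVert (i + 1)).1 := by
    intro i hi
    exact ⟨c.adj_getVert_succ hi, (c.getVert i).2, (c.getVert (i + 1)).2⟩
  refine h.no_cycle h4 (fun i => (c.getVert i).1) (by simp) hadj ?_
  intro i j hij hj
  refine (hcon i j hij hj).trans ?_
  -- the distance in the induced subgraph is at most the one in `GT G F`
  have hreach : (GT G F).Reachable (c.getVert i).1 (c.getVert j).1 := by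
    have := reach_fun (GT G F) (fun i => (c.getVert i).1) i j hij (fun k _ hk => hadj k (by omega))
    exact this
  obtain ⟨w, hw⟩ := hreach.exists_walk_length_eq_dist
  rw [← hw]
  have key : ∀ (a b : V) (ha : a ∈ F) (hb : b ∈ F) (w : (GT G F).Walk a b),
      ∃ w' : (G.induce F).Walk ⟨a, ha⟩ ⟨b, hb⟩, w'.length = w.length := by
    intro a b ha hb w
    induction w with
    | nil => exact ⟨SimpleGraph.Walk.nil, rfl⟩
    | @cons a' b' c' hab w ih =>
      obtain ⟨w', hw'⟩ := ih hab.2.2 hb
      exact ⟨SimpleGraph.Walk.cons (show (G.induce F).Adj ⟨a', ha⟩ ⟨b', hab.2.2⟩ from hab.1) w',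
        by simp [hw']⟩
  obtain ⟨w', hw'⟩ := key _ _ (c.getVert i).2 (c.getVert j).2 w
  rw [← hw']
  exact SimpleGraph.dist_le w'

end Pool.Agent.R42.Br
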