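import Pool.Agent.R42.BrC

set_option autoImplicit false

/-!
Bridged graphs, part D: adding a dominated vertex.
-/

namespace Pool.Agent.R42.Br

universe u

variable {V : Type u} {G : SimpleGraph V}

theorem sqpent {H : SimpleGraph V} (h4 : C4 H) (h5 : C5 H) {z a b p q : V} (za : H.Adj z a)
    (zb : H.Adj z b) (pa : H.Adj p a) (qb : H.Adj q b) (hpq : p = q ∨ H.Adj p q) (hab : a ≠ b)
    (nab : ¬ H.Adj a b) (zp : ¬ H.Adj z p) (zq : ¬ H.Adj z q) (nzp : z ≠ p) (nzq : z ≠ q) :
    False := by
  have key : ∀ r, H.Adj r a → H.Adj r b → ¬ H.Adj z r → z ≠ r → False := by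
    intro r hra hrb hzr nzr
    rcases h4 z a r b za hra.symm hrb zb.symm nzr hab with h | h
    · exact hzr h
    · exact nab h
  rcases hpq with rfl | hpq
  · exact key p pa qb zp nzp
  · have n1 : a ≠ q := by rintro rfl; exact nab qb
    have n2 : p ≠ b := by rintro rfl; exact nab pa.symm
    rcases h5 z a p q b za pa.symm hpq qb zb.symm nzp nzq n1 hab n2 with h | h | h | h | h
    · exact zp h
    · exact zq h
    · exact key q h.symm qb zq nzq
    · exact nab h
    · exact key p pa h zp nzp

theorem IsoCycle.per {H : SimpleGraph V} {m : ℕ} {f : ℕ → V} (h : IsoCycle H m f) (q i : ℕ) :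
    f (i + q * m) = f i := by
  induction q with
  | zero => simp
  | succ q ih =>
    have : i + (q + 1) * m = (i + q * m) + m := by ring
    rw [this, h.1, ih]

theorem IsoCycle.shift {H : SimpleGraph V} {m : ℕ} {f : ℕ → V} (h : IsoCycle H m f) (k : ℕ) :
    IsoCycle H m (fun i => f (i + k)) := by
  refine ⟨fun i => ?_, fun i => ?_, fun i j hij hj => ?_⟩
  · have : i + m + k = (i + k) + m := by ring
    simp only [this, h.1]
  · have := h.2.1 (i + k)
    rwa [show i + k + 1 = i + 1 + k by ring] at this
  · rw [h.2.2 (i + k) (j + k) (by omega) (by omega)]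
    congr 1 <;> omega

theorem IsoCycle.reflect {H : SimpleGraph V} {m : ℕ} (hm : 1 ≤ m) {f : ℕ → V}
    (h : IsoCycle H m f) :
    IsoCycle H m (fun i => f ((m - 1) * i)) := by
  obtain ⟨l, rfl⟩ : ∃ l, m = l + 1 := ⟨m - 1, by omega⟩
  simp only [Nat.add_sub_cancel]
  have hstep : ∀ i d, d ≤ l + 1 → f (l * (i + d)) = f (l * i + (l + 1 - d)) := by
    intro i d hd
    rcases Nat.eq_zero_or_pos d with rfl | h0
    · have := h.1 (l * i)
      simp only [Nat.add_zero, Nat.sub_zero, this]
    · obtain ⟨e, rfl⟩ : ∃ e, d = e + 1 := ⟨d - 1, by omega⟩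
      have e1 : l * (i + (e + 1)) = (l * i + (l + 1 - (e + 1))) + e * (l + 1) := by
        obtain ⟨t, rfl⟩ : ∃ t, l = e + t := ⟨l - e, by omega⟩
        have : e + t + 1 - (e + 1) = t := by omega
        rw [this]
        ring
      rw [e1, h.per]
  refine ⟨fun i => ?_, fun i => ?_, fun i j hij hj => ?_⟩
  · have := h.per l (l * i)
    have e : l * (i + (l + 1)) = l * i + l * (l + 1) := by ring
    simp only [e, this]
  · have e1 := hstep i 1 (by omega)
    simp only [Nat.add_sub_cancel] at e1
    simp only [e1]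
    have e2 := h.2.1 (l * i + l)
    have e3 : f (l * i + l + 1) = f (l * i) := by
      have := h.1 (l * i)
      rwa [← add_assoc] at this
    rw [e3] at e2
    exact e2.symm
  · obtain ⟨d, rfl⟩ := Nat.exists_eq_add_of_le hij
    simp only [hstep i d (by omega)]
    rw [h.2.2 _ _ (by omega) (by omega)]
    omega

section step

variable {F : Set V} {z w : V} (h4 : C4 G) (h5 : C5 G)
  (hwz : G.Adj z w) (hwF : w ∈ F)
  (hdom : ∀ y ∈ F, G.Adj z y → y = w ∨ G.Adj w y)
  (hNI : NI (GT G (F \ {z})))

include h4 h5 hwz hwF hdom hNI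

theorem step_aux {m : ℕ} (hm : 6 ≤ m) {g : ℕ → V} (hg : IsoCycle (GT G F) m g) (h0 : g 0 = z)
    {j : ℕ} (hj1 : 1 ≤ j) (hj : 2 * j ≤ m) (hd : (GT G (F \ {z})).dist w (g j) < j) : False := by
  set H := GT G F with hH
  set H' := GT G (F \ {z}) with hH'
  have hle : H' ≤ H := GT_mono Set.sdiff_subset
  have hgF : ∀ i, g i ∈ F := fun i => (hg.2.1 i).2.1
  have hgz : ∀ i, 1 ≤ i → i < m → g i ≠ z := by
    intro i hi him he
    have := hg.2.2 0 i (by omega) (by omega)
    rw [he, h0, SimpleGraph.dist_self] at this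
    omega
  have hgm : g m = z := by
    have := hg.1 0
    rw [Nat.zero_add] at this
    rw [this, h0]
  have hza : H.Adj z (g 1) := by
    have := hg.2.1 0
    rwa [h0] at this
  have hzb : H.Adj z (g (m - 1)) := by
    have := hg.2.1 (m - 1)
    rw [show m - 1 + 1 = m by omega, hgm] at this
    exact this.symm
  have dab : H.dist (g 1) (g (m - 1)) = 2 := by
    rw [hg.2.2 1 (m - 1) (by omega) (by omega)]; omega
  have nab : ¬ H.Adj (g 1) (g (m - 1)) := by
    intro h; rw [SimpleGraph.dist_eq_one_iff_adj.2 h] at dab; omega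
  have neab : g 1 ≠ g (m - 1) := by
    intro h; rw [h, SimpleGraph.dist_self] at dab; omega
  have haw : g 1 ≠ w := by
    intro h
    rcases hdom _ (hgF (m - 1)) hzb.1 with h1 | h1
    · exact neab (h.trans h1.symm)
    · exact nab ⟨by rw [h]; exact h1, hgF _, hgF _⟩
  have hbw : g (m - 1) ≠ w := by
    intro h
    rcases hdom _ (hgF 1) hza.1 with h1 | h1
    · exact haw h1
    · exact nab ⟨by rw [h]; exact h1.symm, hgF _, hgF _⟩
  have hwa : G.Adj w (g 1) := (hdom _ (hgF 1) hza.1).resolve_left haw
  have hwb : G.Adj w (g (m - 1)) := (hdom _ (hgF (m - 1)) hzb.1).resolve_left hbw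
  have hwz' : w ≠ z := hwz.ne'
  have hwF' : w ∈ F \ {z} := ⟨hwF, hwz'⟩
  have hgF' : ∀ i, 1 ≤ i → i < m → g i ∈ F \ {z} := fun i h1 h2 => ⟨hgF i, hgz i h1 h2⟩
  have hwa' : H'.Adj w (g 1) := ⟨hwa, hwF', hgF' 1 le_rfl (by omega)⟩
  have hwb' : H'.Adj w (g (m - 1)) := ⟨hwb, hwF', hgF' _ (by omega) (by omega)⟩
  have hwg : ∀ i, 1 ≤ i → i < m → g i ≠ w := by
    intro i hi him he
    have h1 := hg.2.2 0 i (by omega) (by omega)
    have h2 : H.Adj z w := ⟨hwz, by rw [← h0]; exact hgF 0, hwF⟩
    rw [he, h0, SimpleGraph.dist_eq_one_iff_adj.2 h2] at h1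
    have h3 : i = 1 ∨ i = m - 1 := by omega
    rcases h3 with rfl | rfl
    · exact haw he
    · exact hbw he
  -- distances in H' between vertices of the cycle
  have hadj' : ∀ k, 1 ≤ k → k + 1 < m → H'.Adj (g k) (g (k + 1)) := fun k h1 h2 =>
    ⟨(hg.2.1 k).1, hgF' k h1 (by omega), hgF' (k + 1) (by omega) h2⟩
  have hreach : ∀ k, 1 ≤ k → k < m → H'.Reachable w (g k) := by
    intro k h1 h2
    exact hwa'.reachable.trans (reach_fun H' g 1 k h1 (fun i hi hi' => hadj' i hi (by omega)))
  have hdist : ∀ i k, 1 ≤ i → i ≤ k → k < m → H'.dist (g i) (g k) = min (k - i) (m - (k - i)) := by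
    intro i k hi hik hk
    apply le_antisymm
    · apply le_min
      · exact dist_fun_le H' g i k hik (fun l h1 h2 => hadj' l (by omega) (by omega))
      · have t1 := dist_fun_le H' g 1 i hi (fun l h1 h2 => hadj' l (by omega) (by omega))
        have t2 := dist_fun_le H' g k (m - 1) (by omega)
          (fun l h1 h2 => hadj' l (by omega) (by omega))
        have r1 : H'.Reachable w (g i) := hreach i hi (by omega)
        have r2 : H'.Reachable w (g k) := hreach k (by omega) (by omega)
        have s1 : H'.dist w (g i) ≤ i := by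
          have := hwa'.reachable.dist_triangle_left (g i)
          rw [SimpleGraph.dist_eq_one_iff_adj.2 hwa'] at this
          omega
        have s2 : H'.dist w (g k) ≤ m - k := by
          have := hwb'.reachable.dist_triangle_left (g k)
          rw [SimpleGraph.dist_eq_one_iff_adj.2 hwb', SimpleGraph.dist_comm (u := g (m - 1))]
            at this
          omega
        have s3 := r1.symm.dist_triangle_left (g k)
        rw [SimpleGraph.dist_comm (u := g i) (v := w)] at s3
        omega
    · rw [← hg.2.2 i k hik (by omega)]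
      exact ((hreach i hi (by omega)).symm.trans (hreach k (by omega) hk)).dist_anti hle
  have dzj : H.dist z (g j) = j := by
    have := hg.2.2 0 j (by omega) (by omega)
    rw [h0] at this
    omega
  have hzw : H.Adj z w := ⟨hwz, by rw [← h0]; exact hgF 0, hwF⟩
  have t1 := adj_dist hzw (g j)
  have t2 := (hreach j hj1 (by omega)).dist_anti hle
  have dwj : H'.dist w (g j) + 1 = j := by omega
  have dbj : H'.dist (g (m - 1)) (g j) = min (m - 1 - j) (m - (m - 1 - j)) := by
    rw [SimpleGraph.dist_comm]; exact hdist j (m - 1) hj1 (by omega) (by omega)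
  have daj : H'.dist (g 1) (g j) = j - 1 := by
    rw [hdist 1 j le_rfl hj1 (by omega)]; omega
  have t3 := adj_dist hwb' (g j)
  have hjm : m ≤ 2 * j + 1 := by omega
  have hj3 : 3 ≤ j := by omega
  rcases Nat.eq_or_lt_of_le hj with h6 | h6
  · -- m = 2 j
    obtain ⟨p, pa, pw, dp⟩ := hNI.T (n := j - 2) (y := g j) hwa'.symm (by omega)
      (by omega)
    obtain ⟨q, qw, qb, dq⟩ := hNI.T (n := j - 2) (y := g j) hwb' (by omega)
      (by omega)
    have hpq := hNI.Q (n := j - 2) (y := g j) pw.symm qw.symm (by omega) dp dq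
    have rp : H'.Reachable p (g j) := pa.reachable.trans
      ((hreach 1 le_rfl (by omega)).symm.trans (hreach j hj1 (by omega)))
    have rq : H'.Reachable q (g j) := qb.reachable.trans
      ((hreach (m - 1) (by omega) (by omega)).symm.trans (hreach j hj1 (by omega)))
    have dp' := rp.dist_anti hle
    have dq' := rq.dist_anti hle
    refine sqpent (GT_c4 h4 F) (GT_c5 h5 F) hza hzb (hle pa) (hle qb)
      (hpq.imp id (fun h => hle h)) neab nab ?_ ?_ ?_ ?_
    · intro h; have := adj_dist (show H.Adj z p from h) (g j); omega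
    · intro h; have := adj_dist (show H.Adj z q from h) (g j); omega
    · exact ne_of_dist (G := H) (y := g j) (by omega)
    · exact ne_of_dist (G := H) (y := g j) (by omega)
  · -- m = 2 j + 1
    have hm1 : m = 2 * j + 1 := by omega
    have d2 : H'.dist (g (m - 2)) (g j) = j - 1 := by
      rw [SimpleGraph.dist_comm, hdist j (m - 2) hj1 (by omega) (by omega)]; omega
    have ab2 : H'.Adj (g (m - 1)) (g (m - 2)) := by
      have := hadj' (m - 2) (by omega) (by omega)
      rw [show m - 2 + 1 = m - 1 by omega] at this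
      exact this.symm
    rcases hNI.Q (n := j - 1) (y := g j) hwb'.symm ab2 (by omega)
      (by omega) d2 with h7 | h7
    · exact hwg (m - 2) (by omega) (by omega) h7.symm
    · have t4 : H.dist (g 1) (g (m - 2)) ≤ 2 := by
        have := SimpleGraph.dist_le (SimpleGraph.Walk.cons (hle hwa').symm
          (SimpleGraph.Walk.cons (hle h7) SimpleGraph.Walk.nil))
        simpa using this
      rw [hg.2.2 1 (m - 2) (by omega) (by omega)] at t4
      omega

theorem step : NI (GT G F) := by
  intro m hm f hf
  have H4 := GT_c4 h4 F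
  have H5 := GT_c5 h5 F
  set H := GT G F with hH
  set H' := GT G (F \ {z}) with hH'
  have hle : H' ≤ H := GT_mono Set.sdiff_subset
  have hm6 : 6 ≤ m := by
    by_contra hcon
    have nadj : ∀ i j, i ≤ j → j ≤ i + m → 2 ≤ min (j - i) (m - (j - i)) →
        ¬ H.Adj (f i) (f j) ∧ f i ≠ f j := by
      intro i j h1 h2 h3
      rw [← hf.2.2 i j h1 h2] at h3
      refine ⟨fun h => ?_, fun h => ?_⟩
      · rw [SimpleGraph.dist_eq_one_iff_adj.2 h] at h3; omega
      · rw [h, SimpleGraph.dist_self] at h3; omega
    have h45 : m = 4 ∨ m = 5 := by omega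
    have e0 := hf.1 0
    rw [Nat.zero_add] at e0
    rcases h45 with rfl | rfl
    · have a3 := hf.2.1 3
      rw [e0] at a3
      have n1 := nadj 0 2 (by omega) (by omega) (by omega)
      have n2 := nadj 1 3 (by omega) (by omega) (by omega)
      rcases H4 (f 0) (f 1) (f 2) (f 3) (hf.2.1 0) (hf.2.1 1) (hf.2.1 2) a3 n1.2 n2.2 with h | h
      · exact n1.1 h
      · exact n2.1 h
    · have a4 := hf.2.1 4
      rw [e0] at a4
      have n1 := nadj 0 2 (by omega) (by omega) (by omega)
      have n2 := nadj 0 3 (by omega) (by omega) (by omega)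
      have n3 := nadj 1 3 (by omega) (by omega) (by omega)
      have n4 := nadj 1 4 (by omega) (by omega) (by omega)
      have n5 := nadj 2 4 (by omega) (by omega) (by omega)
      rcases H5 (f 0) (f 1) (f 2) (f 3) (f 4) (hf.2.1 0) (hf.2.1 1) (hf.2.1 2) (hf.2.1 3) a4
        n1.2 n2.2 n3.2 n4.2 n5.2 with h | h | h | h | h
      · exact n1.1 h
      · exact n2.1 h
      · exact n3.1 h
      · exact n4.1 h
      · exact n5.1 h
  by_cases hz : ∃ k, f k = z
  · obtain ⟨k, hk⟩ := hz
    have hg := hf.shift k
    set g : ℕ → V := fun i => f (i + k) with hgdef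
    have h0 : g 0 = z := by simp [hgdef, hk]
    -- basic facts
    have hgF : ∀ i, g i ∈ F := fun i => (hg.2.1 i).2.1
    have hgz : ∀ i, 1 ≤ i → i < m → g i ≠ z := by
      intro i hi him he
      have := hg.2.2 0 i (by omega) (by omega)
      rw [he, h0, SimpleGraph.dist_self] at this
      omega
    have hgm : g m = z := by
      have := hg.1 0
      rw [Nat.zero_add] at this
      rw [this, h0]
    have hza : H.Adj z (g 1) := by
      have := hg.2.1 0
      rwa [h0] at this
    have hzb : H.Adj z (g (m - 1)) := by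
      have := hg.2.1 (m - 1)
      rw [show m - 1 + 1 = m by omega, hgm] at this
      exact this.symm
    have dab : H.dist (g 1) (g (m - 1)) = 2 := by
      rw [hg.2.2 1 (m - 1) (by omega) (by omega)]; omega
    have nab : ¬ H.Adj (g 1) (g (m - 1)) := by
      intro h; rw [SimpleGraph.dist_eq_one_iff_adj.2 h] at dab; omega
    have neab : g 1 ≠ g (m - 1) := by
      intro h; rw [h, SimpleGraph.dist_self] at dab; omega
    have haw : g 1 ≠ w := by
      intro h
      rcases hdom _ (hgF (m - 1)) hzb.1 with h1 | h1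
      · exact neab (h.trans h1.symm)
      · exact nab ⟨by rw [h]; exact h1, hgF _, hgF _⟩
    have hbw : g (m - 1) ≠ w := by
      intro h
      rcases hdom _ (hgF 1) hza.1 with h1 | h1
      · exact haw h1
      · exact nab ⟨by rw [h]; exact h1.symm, hgF _, hgF _⟩
    have hwa : G.Adj w (g 1) := (hdom _ (hgF 1) hza.1).resolve_left haw
    have hwb : G.Adj w (g (m - 1)) := (hdom _ (hgF (m - 1)) hzb.1).resolve_left hbw
    have hwF' : w ∈ F \ {z} := ⟨hwF, hwz.ne'⟩
    have hgF' : ∀ i, 1 ≤ i → i < m → g i ∈ F \ {z} := fun i h1 h2 => ⟨hgF i, hgz i h1 h2⟩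
    have hreach : ∀ i j, 1 ≤ i → i ≤ j → j < m → H'.Reachable (g i) (g j) := by
      intro i j h1 h2 h3
      exact reach_fun H' g i j h2 (fun l hl hl' =>
        ⟨(hg.2.1 l).1, hgF' l (by omega) (by omega), hgF' (l + 1) (by omega) (by omega)⟩)
    refine hNI.no_cycle (m := m) hm (fun i => if i = 0 ∨ i = m then w else g i) ?_ ?_ ?_
    · simp
    · intro i hi
      by_cases h1 : i = 0
      · subst h1
        rw [if_pos (Or.inl rfl), if_neg (by omega)]
        exact ⟨hwa, hwF', hgF' _ (by omega) (by omega)⟩
      · rw [if_neg (by omega)]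
        by_cases h2 : i + 1 = m
        · rw [if_pos (Or.inr h2)]
          have : i = m - 1 := by omega
          subst this
          exact ⟨hwb.symm, hgF' _ (by omega) (by omega), hwF'⟩
        · rw [if_neg (by omega)]
          exact ⟨(hg.2.1 i).1, hgF' _ (by omega) (by omega), hgF' _ (by omega) (by omega)⟩
    · intro i j hij hj
      by_cases h1 : i = 0
      · subst h1
        rw [if_pos (Or.inl rfl)]
        by_cases h2 : j = 0
        · subst h2; simp
        · rw [if_neg (by omega)]
          by_contra hcon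
          rw [not_le] at hcon
          simp only [Nat.sub_zero] at hcon
          rcases Nat.le_total (2 * j) m with h3 | h3
          · exact step_aux h4 h5 hwz hwF hdom hNI hm6 hg h0 (j := j) (by omega) h3
              (show H'.dist w (g j) < j by omega)
          · have hr := hg.reflect (by omega)
            have h00 : (fun i => g ((m - 1) * i)) 0 = z := by simpa using h0
            refine step_aux h4 h5 hwz hwF hdom hNI hm6 hr h00 (j := m - j) (by omega) (by omega) ?_
            have e : g ((m - 1) * (m - j)) = g j := by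
              have e1 : (m - 1) * (m - j) = j + (m - j - 1) * m := by
                obtain ⟨t, ht⟩ : ∃ t, m = j + 1 + t := ⟨m - j - 1, by omega⟩
                subst ht
                have e2 : j + 1 + t - 1 = j + t := by omega
                have e3 : j + 1 + t - j = t + 1 := by omega
                have e4 : j + 1 + t - j - 1 = t := by omega
                rw [e2, e3]
                simp only [Nat.add_sub_cancel]
                ring
              rw [e1, hg.per]
            show H'.dist w (g ((m - 1) * (m - j))) < m - j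
            rw [e]
            omega
      · rw [if_neg (by omega), if_neg (by omega), ← hg.2.2 i j hij (by omega)]
        exact (hreach i j (by omega) hij hj).dist_anti hle
  · push Not at hz
    have hadj' : ∀ i, H'.Adj (f i) (f (i + 1)) := fun i =>
      ⟨(hf.2.1 i).1, ⟨(hf.2.1 i).2.1, hz i⟩, ⟨(hf.2.1 i).2.2, hz (i + 1)⟩⟩
    refine hNI m hm f (isoCycle_of_le _ m f hf.1 hadj' ?_)
    intro i j _ hij hj
    rw [← hf.2.2 i j hij hj.le]
    exact (reach_fun H' f i j hij (fun k _ _ => hadj' k)).dist_anti hle

end step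

end Pool.Agent.R42.Br
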