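import Pool.Agent.R42.BrD

set_option autoImplicit false

/-!
Bridged graphs, part E: transfinite breadth-first search, fathers, and finite closed sets.
-/

namespace Pool.Agent.R42.Br

universe u

variable {V : Type u} (G : SimpleGraph V)

/-- The chosen vertex of the component of `x`. -/
noncomputable def root (x : V) : V := (G.connectedComponentMk x).out

theorem reach_root (x : V) : G.Reachable x (root G x) := by
  have h : G.connectedComponentMk (root G x) = G.connectedComponentMk x :=
    Quot.out_eq (G.connectedComponentMk x)
  exact (SimpleGraph.ConnectedComponent.exact h).symm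

theorem root_eq {x y : V} (h : G.Adj x y) : root G x = root G y := by
  unfold root
  rw [SimpleGraph.ConnectedComponent.sound h.reachable]

/-- The distance to the root. -/
noncomputable def level (x : V) : ℕ := G.dist x (root G x)

theorem level_adj {x y : V} (h : G.Adj x y) : level G x ≤ level G y + 1 ∧
    level G y ≤ level G x + 1 := by
  unfold level
  rw [← root_eq G h]
  exact adj_dist h _

theorem level_zero {x : V} (h : level G x = 0) : x = root G x :=
  (reach_root G x).dist_eq_zero_iff.1 h

/-- The neighbours of `x` on level `n`. -/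
def below (n : ℕ) (x : V) : Set V := {y | G.Adj x y ∧ level G y = n}

open Classical in
/-- The least neighbour of `x` on level `n` for the well-order `o`. -/
noncomputable def fth (o : {r : V → V → Prop // IsWellOrder V r}) (n : ℕ) (x : V) : V :=
  if h : (below G n x).Nonempty then
    (o.2.toIsWellFounded.wf).min (below G n x) h else x

/-- The well-order used on level `n`. -/
noncomputable def ord : ℕ → {r : V → V → Prop // IsWellOrder V r}
  | 0 => ⟨WellOrderingRel, inferInstance⟩
  | n + 1 => ⟨fun x y => Prod.Lex (ord n).1 WellOrderingRel (fth G (ord n) n x, x)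
      (fth G (ord n) n y, y), by
        have := (ord n).2
        have hinj : Function.Injective (fun x : V => (fth G (ord n) n x, x)) := by
          intro x y h
          exact congrArg Prod.snd h
        exact (RelEmbedding.preimage ⟨_, hinj⟩
          (Prod.Lex (ord n).1 (WellOrderingRel (α := V)))).isWellOrder⟩

/-- The father of `x`. -/
noncomputable def fa (x : V) : V := fth G (ord G (level G x - 1)) (level G x - 1) x

theorem exists_closer {n : ℕ} {x r : V} (w : G.Walk x r) (hw : w.length = G.dist x r)
    (hn : G.dist x r = n + 1) : ∃ y, G.Adj x y ∧ G.dist y r = n := by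
  cases w with
  | nil => simp at hn
  | @cons _ y _ hxy w =>
    refine ⟨y, hxy, ?_⟩
    rw [SimpleGraph.Walk.length_cons] at hw
    have h1 := SimpleGraph.dist_le w
    have h2 := (adj_dist hxy r).1
    omega

theorem below_nonempty {n : ℕ} {x : V} (h : level G x = n + 1) : (below G n x).Nonempty := by
  obtain ⟨w, hw⟩ := (reach_root G x).exists_walk_length_eq_dist
  obtain ⟨y, h1, h2⟩ := exists_closer G w hw h
  exact ⟨y, h1, by unfold level; rw [← root_eq G h1]; exact h2⟩

theorem fa_mem {n : ℕ} {x : V} (h : level G x = n + 1) : fa G x ∈ below G n x := by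
  unfold fa fth
  rw [h, Nat.add_sub_cancel, dif_pos (below_nonempty G h)]
  exact WellFounded.min_mem _ _ _

theorem fa_min {n : ℕ} {x y : V} (h : level G x = n + 1) (hy : y ∈ below G n x) :
    ¬ (ord G n).1 y (fa G x) := by
  unfold fa fth
  rw [h, Nat.add_sub_cancel, dif_pos (below_nonempty G h)]
  exact WellFounded.not_lt_min _ _ hy

theorem ord_succ {n : ℕ} {x y : V} (hx : level G x = n + 1) (hy : level G y = n + 1) :
    (ord G (n + 1)).1 x y ↔
      (ord G n).1 (fa G x) (fa G y) ∨ (fa G x = fa G y ∧ WellOrderingRel x y) := by
  have h1 : fa G x = fth G (ord G n) n x := by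
    unfold fa; rw [hx, Nat.add_sub_cancel]
  have h2 : fa G y = fth G (ord G n) n y := by
    unfold fa; rw [hy, Nat.add_sub_cancel]
  rw [h1, h2]
  show Prod.Lex (ord G n).1 WellOrderingRel (fth G (ord G n) n x, x)
      (fth G (ord G n) n y, y) ↔ _
  rw [Prod.lex_def]

variable {G}

theorem level_clique (h : NI G) {n : ℕ} {z a b : V} (hz : level G z = n + 1)
    (ha : a ∈ below G n z) (hb : b ∈ below G n z) : a = b ∨ G.Adj a b := by
  refine h.Q (y := root G z) ha.1 hb.1 hz ?_ ?_
  · rw [root_eq G ha.1]; exact ha.2
  · rw [root_eq G hb.1]; exact hb.2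

theorem level_triangle (h : NI G) {n : ℕ} {a b : V} (hab : G.Adj a b) (ha : level G a = n + 1)
    (hb : level G b = n + 1) : ∃ c, c ∈ below G n a ∧ c ∈ below G n b := by
  obtain ⟨c, h1, h2, h3⟩ := h.T (y := root G a) hab ha (by rw [root_eq G hab]; exact hb)
  have h4 : level G c = n := by
    unfold level; rw [root_eq G h1]; exact h3
  exact ⟨c, ⟨h1.symm, h4⟩, ⟨h2.symm, h4⟩⟩

theorem ne_of_level {a b : V} (h : level G a ≠ level G b) : a ≠ b := by
  rintro rfl; exact h rfl

theorem father_second (h : NI G) (n : ℕ)
    (H : ∀ z z', level G z = n + 1 → level G z' = n + 1 → G.Adj z z' →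
      fa G z = fa G z' ∨ G.Adj (fa G z) (fa G z')) (z z' : V) (hz : level G z = n + 1)
    (hz' : level G z' = n + 1) (hzz : G.Adj z z') (ho : (ord G (n + 1)).1 z' z) :
    G.Adj (fa G z) z' := by
  have m1 := fa_mem G hz
  have m2 := fa_mem G hz'
  rcases H z z' hz hz' hzz with h1 | h1
  · rw [h1]; exact m2.1.symm
  · rcases h.c4 z z' (fa G z') (fa G z) hzz m2.1 h1.symm m1.1.symm
      (ne_of_level (by rw [hz, m2.2]; omega)) (ne_of_level (by rw [hz', m1.2]; omega)) with h2 | h2
    · have := fa_min G hz ⟨h2, m2.2⟩
      rcases (ord_succ G hz' hz).1 ho with h3 | h3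
      · exact absurd h3 this
      · rw [h3.1] at h1
        exact absurd h1 (G.loopless.irrefl _)
    · exact h2.symm

/-- The fathers of two adjacent vertices on a level are equal or adjacent. -/
theorem father_first (h : NI G) (n : ℕ) : ∀ z z', level G z = n + 1 → level G z' = n + 1 →
    G.Adj z z' → fa G z = fa G z' ∨ G.Adj (fa G z) (fa G z') := by
  induction n with
  | zero =>
    intro z z' hz hz' hzz
    left
    have m1 := fa_mem G hz
    have m2 := fa_mem G hz'
    rw [level_zero G m1.2, level_zero G m2.2, ← root_eq G m1.1, ← root_eq G m2.1, root_eq G hzz]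
  | succ n ih =>
    have hsec := father_second h n ih
    have key : ∀ z z', level G z = n + 1 + 1 → level G z' = n + 1 + 1 → G.Adj z z' →
        (ord G (n + 1)).1 (fa G z) (fa G z') → fa G z = fa G z' ∨ G.Adj (fa G z) (fa G z') := by
      intro z z' hz hz' hzz hlt
      have hwo := (ord G (n + 1)).2
      by_contra hcon
      push Not at hcon
      obtain ⟨hne, hnadj⟩ := hcon
      have m1 := fa_mem G hz
      have m2 := fa_mem G hz'
      obtain ⟨c, c1, c2⟩ := level_triangle h hzz hz hz'
      have cu : G.Adj c (fa G z) := by
        rcases level_clique h hz c1 m1 with h1 | h1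
        · subst h1
          exact absurd hlt (fa_min G hz' c2)
        · exact h1
      have cu' : G.Adj c (fa G z') := by
        rcases level_clique h hz' c2 m2 with h1 | h1
        · subst h1
          exact absurd cu.symm hnadj
        · exact h1
      have lt2 : (ord G (n + 1)).1 (fa G z') c := by
        rcases trichotomous_of (ord G (n + 1)).1 (fa G z') c with h1 | h1 | h1
        · exact h1
        · rw [h1] at cu'
          exact absurd cu' (G.loopless.irrefl _)
        · exact absurd h1 (fa_min G hz' c2)
      have lt1 : (ord G (n + 1)).1 (fa G z) c := _root_.trans hlt lt2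
      have w1 := hsec c (fa G z) c1.2 m1.2 cu lt1
      have w2 := hsec c (fa G z') c1.2 m2.2 cu' lt2
      have mc := fa_mem G c1.2
      rcases h.c5 z (fa G z) (fa G c) (fa G z') z' m1.1 w1.symm w2 m2.1.symm hzz.symm
        (ne_of_level (by rw [hz, mc.2]; omega)) (ne_of_level (by rw [hz, m2.2]; omega)) hne
        (ne_of_level (by rw [hz', m1.2]; omega)) (ne_of_level (by rw [hz', mc.2]; omega))
        with h1 | h1 | h1 | h1 | h1
      · have := (level_adj G h1).1
        rw [hz, mc.2] at this
        omega
      · rcases level_clique h hz m1 ⟨h1, m2.2⟩ with h2 | h2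
        · exact hne h2
        · exact hnadj h2
      · exact hnadj h1
      · rcases level_clique h hz' ⟨h1.symm, m1.2⟩ m2 with h2 | h2
        · exact hne h2
        · exact hnadj h2
      · have := (level_adj G h1).2
        rw [hz', mc.2] at this
        omega
    intro z z' hz hz' hzz
    have hwo := (ord G (n + 1)).2
    rcases trichotomous_of (ord G (n + 1)).1 (fa G z) (fa G z') with h1 | h1 | h1
    · exact key z z' hz hz' hzz h1
    · exact Or.inl h1
    · exact (key z' z hz' hz hzz.symm h1).imp Eq.symm SimpleGraph.Adj.symm

/-- A set of vertices closed under taking fathers. -/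
def Closed (G : SimpleGraph V) (F : Set V) : Prop := ∀ x ∈ F, level G x ≠ 0 → fa G x ∈ F

/-- Finite closed sets induce subgraphs without isometric cycles of length at least four. -/
theorem NI_closed (h : NI G) (k : ℕ) : ∀ F : Finset V, F.card = k → Closed G (F : Set V) →
    NI (GT G (F : Set V)) := by
  classical
  induction k with
  | zero =>
    intro F hF _ m hm f hf
    have := (hf.2.1 0).2.1
    rw [Finset.card_eq_zero.1 hF] at this
    simp at this
  | succ k ih =>
    intro F hF hcl
    have hne : F.Nonempty := Finset.card_pos.1 (by omega)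
    obtain ⟨x0, hx0, hmax⟩ := Finset.exists_max_image F (level G) hne
    rcases Nat.eq_zero_or_pos (level G x0) with h0 | h0
    · intro m hm f hf
      have a := hf.2.1 0
      have l1 : level G (f 0) = 0 := by have := hmax _ a.2.1; omega
      have l2 : level G (f (0 + 1)) = 0 := by have := hmax _ a.2.2; omega
      have e1 := level_zero G l1
      have e2 := level_zero G l2
      rw [← root_eq G a.1, ← e1] at e2
      have := a.1
      rw [e2] at this
      exact G.loopless.irrefl _ this
    · obtain ⟨n, hn⟩ : ∃ n, level G x0 = n + 1 := ⟨level G x0 - 1, by omega⟩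
      have hwo := (ord G (n + 1)).2
      -- the last vertex of the top level
      let F' := F.filter (fun x => level G x = n + 1)
      have hF' : F'.Nonempty := ⟨x0, by simp [F', hx0, hn]⟩
      obtain ⟨z, hz, hzmax⟩ : ∃ z ∈ F', ∀ y ∈ F', ¬ (ord G (n + 1)).1 z y := by
        have hfin : (F' : Set V).Finite := F'.finite_toSet
        have hwf : WellFounded (fun a b : F' => (ord G (n + 1)).1 b.1 a.1) := by
          have : IsStrictOrder F' (fun a b : F' => (ord G (n + 1)).1 b.1 a.1) :=
            { irrefl := fun a => irrefl_of (ord G (n + 1)).1 a.1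
              trans := fun a b c hab hbc => _root_.trans hbc hab }
          exact Finite.wellFounded_of_trans_of_irrefl _
        obtain ⟨z, -, hz⟩ := hwf.has_min Set.univ ⟨⟨x0, by simp [F', hx0, hn]⟩, trivial⟩
        exact ⟨z.1, z.2, fun y hy => hz ⟨y, hy⟩ trivial⟩
      simp only [F', Finset.mem_filter] at hz hzmax
      have hzF : z ∈ F := hz.1
      have lz : level G z = n + 1 := hz.2
      have mz := fa_mem G lz
      have hwF : fa G z ∈ F := hcl z hzF (by omega)
      have hwz : fa G z ≠ z := ne_of_level (by rw [mz.2, lz]; omega)
      have hcl' : Closed G ((F.erase z : Finset V) : Set V) := by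
        intro x hx hlx
        rw [Finset.mem_coe, Finset.mem_erase] at hx ⊢
        refine ⟨?_, hcl x hx.2 hlx⟩
        obtain ⟨i, hi⟩ : ∃ i, level G x = i + 1 := ⟨level G x - 1, by omega⟩
        have m := fa_mem G hi
        have := hmax x hx.2
        exact ne_of_level (by rw [m.2, lz]; omega)
      have hNI' := ih (F.erase z) (by rw [Finset.card_erase_of_mem hzF]; omega) hcl'
      rw [Finset.coe_erase] at hNI'
      refine step (z := z) (w := fa G z) h.c4 h.c5 mz.1 hwF ?_ hNI'
      intro y hy hzy
      have l1 := level_adj G hzy
      have l2 := hmax y hy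
      rcases Nat.eq_or_lt_of_le (show level G y ≤ n + 1 by omega) with h1 | h1
      · right
        refine father_second h n (father_first h n) z y lz h1 hzy ?_
        rcases trichotomous_of (ord G (n + 1)).1 y z with h2 | h2 | h2
        · exact h2
        · rw [h2] at hzy
          exact absurd hzy (G.loopless.irrefl _)
        · exact absurd h2 (hzmax y ⟨hy, h1⟩)
      · rcases level_clique h lz ⟨hzy, by omega⟩ mz with h2 | h2
        · exact Or.inl h2
        · exact Or.inr h2.symm

/-- Every finite set of vertices lies in a finite closed set. -/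
theorem exists_closed (S : Finset V) : ∃ T : Finset V, S ⊆ T ∧ Closed G (T : Set V) := by
  classical
  have key : ∀ n, ∀ x : V, level G x ≤ n → ∃ T : Finset V, x ∈ T ∧ Closed G (T : Set V) := by
    intro n
    induction n with
    | zero =>
      intro x hx
      refine ⟨{x}, by simp, ?_⟩
      intro y hy hly
      simp only [Finset.coe_singleton, Set.mem_singleton_iff] at hy
      subst hy
      omega
    | succ n ih =>
      intro x hx
      rcases Nat.eq_or_lt_of_le hx with h1 | h1
      · have m := fa_mem G h1
        obtain ⟨T, hT, hc⟩ := ih (fa G x) (by rw [m.2])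
        refine ⟨insert x T, by simp, ?_⟩
        intro y hy hly
        rw [Finset.mem_coe, Finset.mem_insert] at hy ⊢
        rcases hy with rfl | hy
        · exact Or.inr hT
        · exact Or.inr (hc y hy hly)
      · exact ih x (by omega)
  choose T hT hc using fun x : V => key (level G x) x le_rfl
  refine ⟨S.biUnion T, ?_, ?_⟩
  · intro x hx
    rw [Finset.mem_biUnion]
    exact ⟨x, hx, hT x⟩
  · intro x hx hlx
    rw [Finset.mem_coe, Finset.mem_biUnion] at hx ⊢
    obtain ⟨y, hy, hxy⟩ := hx
    exact ⟨y, hy, hc y x hxy hlx⟩

end Pool.Agent.R42.Br
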